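import Pool.Agent.R290.CD.Defs

/-!
Baire measures on compact Hausdorff spaces: Riesz representation, factorization of Baire sets
through `ℕ → ℝ`.
-/

open Filter Topology MeasureTheory Set

namespace R290.CD

lemma baireMS_le_borel (X : Type*) [TopologicalSpace X] : baireMS X ≤ borel X := by
  unfold baireMS
  refine iSup_le fun g => ?_
  rintro _ ⟨t, ht, rfl⟩
  letI : MeasurableSpace X := borel X
  haveI : BorelSpace X := ⟨rfl⟩
  exact g.continuous.measurable ht

lemma measurable_baire {X : Type*} [TopologicalSpace X] (g : C(X, ℝ)) :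
    Measurable[baireMS X] g := by
  intro t ht
  have : MeasurableSpace.comap g inferInstance ≤ baireMS X := le_iSup (fun g : C(X, ℝ) =>
    MeasurableSpace.comap g inferInstance) g
  exact this _ ⟨t, ht, rfl⟩

theorem riesz {X : Type} [TopologicalSpace X] [CompactSpace X] [T2Space X]
    (σ : C(X, ℝ) →ₗ[ℝ] ℝ) (hpos : ∀ g, 0 ≤ g → 0 ≤ σ g) (h1 : σ 1 = 1) :
    ∃ μ : @Measure X (baireMS X), μ univ = 1 ∧ ∀ g : C(X, ℝ), ∫ x, g x ∂μ = σ g := by
  letI : MeasurableSpace X := borel X
  haveI : BorelSpace X := ⟨rfl⟩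
  let Λ₀ : CompactlySupportedContinuousMap X ℝ →ₗ[ℝ] ℝ :=
    { toFun := fun f => σ f.toContinuousMap
      map_add' := fun f g => by
        rw [← map_add]; rfl
      map_smul' := fun c f => by
        rw [RingHom.id_apply, ← map_smul]; rfl }
  let Λ : CompactlySupportedContinuousMap X ℝ →ₚ[ℝ] ℝ :=
    PositiveLinearMap.mk₀ Λ₀ (fun f hf => hpos _ (fun x => hf x))
  let μ := RealRMK.rieszMeasure Λ
  have hint : ∀ g : C(X, ℝ), ∫ x, g x ∂μ = σ g := by
    intro g
    exact RealRMK.integral_rieszMeasure Λ (CompactlySupportedContinuousMap.continuousMapEquiv g)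
  have hfin : IsFiniteMeasure μ := by
    have : μ.Regular := RealRMK.regular_rieszMeasure Λ
    exact ⟨isCompact_univ.measure_lt_top⟩
  have huniv : μ univ = 1 := by
    have h2 := hint 1
    simp only [ContinuousMap.one_apply, h1, integral_const, smul_eq_mul, mul_one] at h2
    rw [measureReal_def] at h2
    rw [← ENNReal.toReal_eq_one_iff]
    exact h2
  refine ⟨μ.trim (baireMS_le_borel X), ?_, fun g => ?_⟩
  · rw [trim_measurableSet_eq _ MeasurableSet.univ]; exact huniv
  · rw [← hint g]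
    exact (integral_trim _ (measurable_baire g).stronglyMeasurable).symm

theorem baire_factor {X : Type*} [TopologicalSpace X] {B : Set X}
    (hB : MeasurableSet[baireMS X] B) :
    ∃ Φ : X → ℕ → ℝ, Continuous Φ ∧ ∃ B' : Set (ℕ → ℝ), MeasurableSet B' ∧ B = Φ ⁻¹' B' := by
  unfold baireMS at hB
  rw [MeasurableSpace.measurableSet_iSup] at hB
  induction hB with
  | basic s hs =>
    obtain ⟨g, t, ht, rfl⟩ := hs
    exact ⟨fun x _ => g x, by fun_prop, (fun y => y 0) ⁻¹' t, measurable_pi_apply 0 ht, rfl⟩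
  | empty => exact ⟨fun _ _ => 0, by fun_prop, ∅, MeasurableSet.empty, by simp⟩
  | compl s _ ih =>
    obtain ⟨Φ, hΦ, B', hB', rfl⟩ := ih
    exact ⟨Φ, hΦ, B'ᶜ, hB'.compl, rfl⟩
  | iUnion s _ ih =>
    choose Φ hΦ B' hB' hs using ih
    refine ⟨fun x k => Φ (Nat.unpair k).1 x (Nat.unpair k).2, ?_,
      ⋃ n, (fun (y : ℕ → ℝ) (j : ℕ) => y (Nat.pair n j)) ⁻¹' B' n, ?_, ?_⟩
    · refine continuous_pi fun k => ?_
      exact (continuous_apply _).comp (hΦ _)
    · refine MeasurableSet.iUnion fun n => ?_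
      exact (measurable_pi_lambda _ fun j => measurable_pi_apply _) (hB' n)
    · ext x
      simp only [mem_iUnion, mem_preimage]
      refine exists_congr fun n => ?_
      rw [hs n]
      simp only [mem_preimage, Nat.unpair_pair]

end R290.CD
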