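import Pool.Agent.R290.CD.Stm

/-!
# A state which is maximal in the Choquet order has the Mokobodzki property
-/

open Filter Topology

namespace R290.CD

namespace Mx

section Basic

variable {X : Type} [TopologicalSpace X] [CompactSpace X]

/-- positive normalized linear functionals, as plain functions -/
def IsSt (f : C(X, ℝ) → ℝ) : Prop :=
  (∀ g h, f (g + h) = f g + f h) ∧ (∀ (c : ℝ) g, f (c • g) = c * f g) ∧
    (∀ g, 0 ≤ g → 0 ≤ f g) ∧ f 1 = 1

lemma IsSt.sub {f : C(X, ℝ) → ℝ} (hf : IsSt f) (g h : C(X, ℝ)) : f (g - h) = f g - f h := by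
  have h1 := hf.1 g ((-1 : ℝ) • h)
  rw [hf.2.1] at h1
  rw [show g - h = g + (-1 : ℝ) • h by rw [neg_one_smul, sub_eq_add_neg], h1]
  ring

lemma IsSt.neg {f : C(X, ℝ) → ℝ} (hf : IsSt f) (h : C(X, ℝ)) : f (-h) = -f h := by
  have h1 := hf.2.1 (-1) h
  rw [neg_one_smul] at h1
  rw [h1]; ring

lemma IsSt.mono {f : C(X, ℝ) → ℝ} (hf : IsSt f) {g h : C(X, ℝ)} (hgh : g ≤ h) : f g ≤ f h := by
  have h1 := hf.2.2.1 (h - g) (sub_nonneg.2 hgh)
  rw [hf.sub] at h1
  linarith

lemma IsSt.const {f : C(X, ℝ) → ℝ} (hf : IsSt f) (c : ℝ) : f (ContinuousMap.const X c) = c := by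
  have : ContinuousMap.const X c = c • (1 : C(X, ℝ)) := by ext; simp
  rw [this, hf.2.1, hf.2.2.2, mul_one]

lemma le_const_norm (g : C(X, ℝ)) : g ≤ ContinuousMap.const X ‖g‖ := fun x => by
  exact (le_abs_self _).trans (g.norm_coe_le_norm x)

lemma IsSt.abs_le {f : C(X, ℝ) → ℝ} (hf : IsSt f) (g : C(X, ℝ)) : |f g| ≤ ‖g‖ := by
  rw [_root_.abs_le]
  have h1 := hf.mono (le_const_norm g)
  have h2 := hf.mono (le_const_norm (-g))
  rw [hf.const] at h1 h2
  rw [hf.neg, norm_neg] at h2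
  constructor <;> linarith

lemma isClosed_st : IsClosed {f : C(X, ℝ) → ℝ | IsSt f} := by
  unfold IsSt
  simp only [Set.ofPred_and, Set.ofPred_forall]
  refine IsClosed.inter ?_ (IsClosed.inter ?_ (IsClosed.inter ?_ ?_))
  · exact isClosed_iInter fun g => isClosed_iInter fun h => isClosed_eq (by fun_prop) (by fun_prop)
  · exact isClosed_iInter fun c => isClosed_iInter fun g => isClosed_eq (by fun_prop) (by fun_prop)
  · exact isClosed_iInter fun g => isClosed_iInter fun _ => isClosed_le (by fun_prop) (by fun_prop)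
  · exact isClosed_eq (by fun_prop) (by fun_prop)

lemma isCompact_st : IsCompact {f : C(X, ℝ) → ℝ | IsSt f} := by
  have h : IsCompact (Set.pi Set.univ fun g : C(X, ℝ) => Set.Icc (-‖g‖) ‖g‖) :=
    isCompact_univ_pi fun g => isCompact_Icc
  refine h.of_isClosed_subset isClosed_st fun f hf g _ => ?_
  exact _root_.abs_le.1 (IsSt.abs_le hf g)

end Basic

section Ord

variable {X : Type} [TopologicalSpace X] [CompactSpace X] (C : Set C(X, ℝ)) (x1 : X)

/-- the states above the evaluation at `x1` -/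
def Al : Type := {f : C(X, ℝ) → ℝ // IsSt f ∧ ∀ k ∈ C, k x1 ≤ f k}

/-- the order of the states -/
def rel (f g : Al C x1) : Prop := ∀ k ∈ C, f.1 k ≤ g.1 k

lemma exists_max : ∃ m : Al C x1, ∀ a, rel C x1 m a → rel C x1 a m := by
  have hne : Nonempty (Al C x1) := ⟨⟨fun k => k x1, ⟨fun g h => rfl, fun c g => rfl,
    fun g hg => hg x1, rfl⟩, fun k _ => le_refl _⟩⟩
  refine exists_maximal_of_nonempty_chains_bounded (r := rel C x1) (fun c hc hcn => ?_)
    (fun {a b d} h1 h2 k hk => (h1 k hk).trans (h2 k hk))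
  have : Nonempty c := hcn.to_subtype
  have hrefl : Std.Refl (rel C x1) := ⟨fun f k _ => le_refl _⟩
  have hcl : ∀ a : Al C x1, IsClosed {f : C(X, ℝ) → ℝ | IsSt f ∧ ∀ k ∈ C, a.1 k ≤ f k} := by
    intro a
    have e : {f : C(X, ℝ) → ℝ | IsSt f ∧ ∀ k ∈ C, a.1 k ≤ f k} =
        {f | IsSt f} ∩ ⋂ k ∈ C, {f | a.1 k ≤ f k} := by
      ext f; simp
    rw [e]
    exact isClosed_st.inter (isClosed_biInter fun k _ =>
      isClosed_le continuous_const (continuous_apply k))
  have key := IsCompact.nonempty_iInter_of_directed_nonempty_isCompact_isClosed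
    (fun a : c => {f : C(X, ℝ) → ℝ | IsSt f ∧ ∀ k ∈ C, a.1.1 k ≤ f k}) ?_ ?_ ?_ ?_
  · obtain ⟨f, hf⟩ := key
    rw [Set.mem_iInter] at hf
    obtain ⟨a0⟩ := this
    refine ⟨⟨f, (hf a0).1, fun k hk => (a0.1.2.2 k hk).trans ((hf a0).2 k hk)⟩, fun a ha => ?_⟩
    exact fun k hk => (hf ⟨a, ha⟩).2 k hk
  · intro a b
    rcases hc.total a.2 b.2 with h | h
    · exact ⟨b, fun f hf => ⟨hf.1, fun k hk => (h k hk).trans (hf.2 k hk)⟩, fun f hf => hf⟩
    · exact ⟨a, fun f hf => hf, fun f hf => ⟨hf.1, fun k hk => (h k hk).trans (hf.2 k hk)⟩⟩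
  · intro a
    exact ⟨a.1.1, a.1.2.1, fun k _ => le_refl _⟩
  · intro a
    exact isCompact_st.of_isClosed_subset (hcl a.1) fun f hf => hf.1
  · intro a
    exact hcl a.1

end Ord

section Mok

variable {X : Type} [TopologicalSpace X] [CompactSpace X] {C : Set C(X, ℝ)}

/-- the upper values -/
def TS (C : Set C(X, ℝ)) (s : C(X, ℝ) → ℝ) (h : C(X, ℝ)) : Set ℝ :=
  {r | ∃ u : C(X, ℝ), -u ∈ C ∧ h ≤ u ∧ s u = r}

/-- the sublinear function -/
noncomputable def pp (C : Set C(X, ℝ)) (s : C(X, ℝ) → ℝ) (h : C(X, ℝ)) : ℝ := sInf (TS C s h)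

lemma TS_bdd {s : C(X, ℝ) → ℝ} (hs : IsSt s) (h : C(X, ℝ)) : BddBelow (TS C s h) :=
  ⟨s h, by rintro r ⟨u, _, hu, rfl⟩; exact hs.mono hu⟩

lemma TS_ne (s : C(X, ℝ) → ℝ) (hconst : ∀ c : ℝ, ContinuousMap.const X c ∈ C) (h : C(X, ℝ)) :
    (TS C s h).Nonempty := by
  refine ⟨_, ContinuousMap.const X ‖h‖, ?_, le_const_norm h, rfl⟩
  have : -ContinuousMap.const X ‖h‖ = ContinuousMap.const X (-‖h‖) := by ext; simp
  rw [this]
  exact hconst _

lemma pp_le {s : C(X, ℝ) → ℝ} (hs : IsSt s) {h u : C(X, ℝ)} (hu : -u ∈ C) (hh : h ≤ u) :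
    pp C s h ≤ s u := csInf_le (TS_bdd hs h) ⟨u, hu, hh, rfl⟩

lemma le_pp {s : C(X, ℝ) → ℝ} (hconst : ∀ c : ℝ, ContinuousMap.const X c ∈ C) {h : C(X, ℝ)}
    {r : ℝ} (H : ∀ u, -u ∈ C → h ≤ u → r ≤ s u) : r ≤ pp C s h :=
  le_csInf (TS_ne s hconst h) (by rintro _ ⟨u, h1, h2, rfl⟩; exact H u h1 h2)

lemma pp_add {s : C(X, ℝ) → ℝ} (hs : IsSt s) (hconst : ∀ c : ℝ, ContinuousMap.const X c ∈ C)
    (hadd : ∀ f ∈ C, ∀ g ∈ C, f + g ∈ C) (x y : C(X, ℝ)) :
    pp C s (x + y) ≤ pp C s x + pp C s y := by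
  have h1 : pp C s (x + y) - pp C s y ≤ pp C s x := by
    refine le_pp hconst fun u hu hxu => ?_
    have h2 : pp C s (x + y) - s u ≤ pp C s y := by
      refine le_pp hconst fun v hv hyv => ?_
      have h3 : pp C s (x + y) ≤ s (u + v) :=
        pp_le hs (by rw [neg_add]; exact hadd _ hu _ hv) (add_le_add hxu hyv)
      rw [hs.1] at h3
      linarith
    linarith
  linarith

lemma pp_smul_le {s : C(X, ℝ) → ℝ} (hs : IsSt s) (hconst : ∀ c : ℝ, ContinuousMap.const X c ∈ C)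
    (hsm : ∀ c : ℝ, 0 ≤ c → ∀ f ∈ C, c • f ∈ C) {c : ℝ} (hc : 0 < c) (x : C(X, ℝ)) :
    pp C s (c • x) ≤ c * pp C s x := by
  have h1 : c⁻¹ * pp C s (c • x) ≤ pp C s x := by
    refine le_pp hconst fun u hu hxu => ?_
    have h3 : pp C s (c • x) ≤ s (c • u) := by
      refine pp_le hs (by rw [← smul_neg]; exact hsm c hc.le _ hu) fun t => ?_
      have := hxu t
      exact mul_le_mul_of_nonneg_left this hc.le
    rw [hs.2.1] at h3
    rw [inv_mul_le_iff₀ hc]
    exact h3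
  rwa [inv_mul_le_iff₀ hc] at h1

lemma pp_smul {s : C(X, ℝ) → ℝ} (hs : IsSt s) (hconst : ∀ c : ℝ, ContinuousMap.const X c ∈ C)
    (hsm : ∀ c : ℝ, 0 ≤ c → ∀ f ∈ C, c • f ∈ C) (c : ℝ) (hc : 0 < c) (x : C(X, ℝ)) :
    pp C s (c • x) = c * pp C s x := by
  refine le_antisymm (pp_smul_le hs hconst hsm hc x) ?_
  have h1 := pp_smul_le hs hconst hsm (inv_pos.2 hc) (c • x)
  rw [smul_smul, inv_mul_cancel₀ hc.ne', one_smul, ← div_eq_inv_mul, le_div_iff₀ hc] at h1
  linarith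

lemma pp_zero {s : C(X, ℝ) → ℝ} (hs : IsSt s) (hconst : ∀ c : ℝ, ContinuousMap.const X c ∈ C) :
    pp C s 0 = 0 := by
  refine le_antisymm ?_ ?_
  · have h0 : s 0 = 0 := by simpa using hs.2.1 0 0
    have h1 : pp C s 0 ≤ s 0 := pp_le hs (by
      have e : (-0 : C(X, ℝ)) = ContinuousMap.const X 0 := by ext; simp
      rw [e]
      exact hconst 0) (le_refl _)
    linarith
  · exact le_pp hconst fun u _ hu => hs.2.2.1 u hu

/-- Hahn-Banach -/
lemma exists_nu {s : C(X, ℝ) → ℝ} (hs : IsSt s)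
    (hconst : ∀ c : ℝ, ContinuousMap.const X c ∈ C)
    (hadd : ∀ f ∈ C, ∀ g ∈ C, f + g ∈ C)
    (hsm : ∀ c : ℝ, 0 ≤ c → ∀ f ∈ C, c • f ∈ C) {w : C(X, ℝ)} (hw : w ≠ 0) :
    ∃ ν : C(X, ℝ) →ₗ[ℝ] ℝ, (∀ x, ν x ≤ pp C s x) ∧ ν w = pp C s w := by
  have key : ∀ c : ℝ, c * pp C s w ≤ pp C s (c • w) := by
    intro c
    rcases lt_trichotomy c 0 with hc | hc | hc
    · have h1 := pp_add hs hconst hadd (c • w) ((-c) • w)
      rw [← add_smul, add_neg_cancel, zero_smul, pp_zero hs hconst,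
        pp_smul hs hconst hsm (-c) (by linarith)] at h1
      linarith
    · subst hc
      rw [zero_smul, pp_zero hs hconst, zero_mul]
    · exact (pp_smul hs hconst hsm c hc w).ge
  obtain ⟨ν, h1, h2⟩ := exists_extension_of_le_sublinear
    (LinearPMap.mkSpanSingleton (K := ℝ) w (pp C s w) hw) (pp C s)
    (pp_smul hs hconst hsm) (pp_add hs hconst hadd) (by
      rintro ⟨x, hx⟩
      obtain ⟨c, rfl⟩ := Submodule.mem_span_singleton.1 hx
      refine (le_of_eq (LinearPMap.mkSpanSingleton'_apply _ _ _ c hx)).trans ?_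
      simpa using key c)
  refine ⟨ν, h2, ?_⟩
  have h3 := h1 ⟨w, Submodule.mem_span_singleton_self w⟩
  rw [LinearPMap.mkSpanSingleton_apply] at h3
  exact h3

/-- density of the differences -/
lemma dense_diff (hconst : ∀ c : ℝ, ContinuousMap.const X c ∈ C)
    (hadd : ∀ f ∈ C, ∀ g ∈ C, f + g ∈ C)
    (hsm : ∀ c : ℝ, 0 ≤ c → ∀ f ∈ C, c • f ∈ C)
    (hsup : ∀ f ∈ C, ∀ g ∈ C, f ⊔ g ∈ C)
    (hsep : ∀ x y : X, x ≠ y → ∃ a ∈ C, -a ∈ C ∧ a x ≠ a y) :
    closure {h : C(X, ℝ) | ∃ k ∈ C, ∃ l ∈ C, h = k - l} = ⊤ := by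
  refine ContinuousMap.sublattice_closure_eq_top _ ?_ ?_ ?_ ?_
  · exact ⟨_, _, hconst 0, _, hconst 0, rfl⟩
  · rintro _ ⟨k, hk, l, hl, rfl⟩ _ ⟨k', hk', l', hl', rfl⟩
    refine ⟨k + k', hadd _ hk _ hk', (l + k') ⊔ (l' + k), hsup _ (hadd _ hl _ hk') _
      (hadd _ hl' _ hk), ?_⟩
    ext x
    simp only [ContinuousMap.inf_apply, ContinuousMap.sub_apply, ContinuousMap.add_apply,
      ContinuousMap.sup_apply]
    rcases le_total (k x - l x) (k' x - l' x) with h | h
    · rw [inf_eq_left.2 h, sup_eq_left.2 (by linarith)]; ring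
    · rw [inf_eq_right.2 h, sup_eq_right.2 (by linarith)]; ring
  · rintro _ ⟨k, hk, l, hl, rfl⟩ _ ⟨k', hk', l', hl', rfl⟩
    refine ⟨(k + l') ⊔ (k' + l), hsup _ (hadd _ hk _ hl') _ (hadd _ hk' _ hl), l + l',
      hadd _ hl _ hl', ?_⟩
    ext x
    simp only [ContinuousMap.sub_apply, ContinuousMap.add_apply, ContinuousMap.sup_apply]
    rcases le_total (k x - l x) (k' x - l' x) with h | h
    · rw [sup_eq_right.2 h, sup_eq_right.2 (by linarith)]; ring
    · rw [sup_eq_left.2 h, sup_eq_left.2 (by linarith)]; ring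
  · intro v x y
    by_cases hxy : x = y
    · subst hxy
      exact ⟨_, ⟨_, hconst (v x), _, hconst 0, rfl⟩, by simp, by simp⟩
    · obtain ⟨a, ha, ha', hne⟩ := hsep x y hxy
      have hsa : ∀ r : ℝ, r • a ∈ C := by
        intro r
        rcases le_total 0 r with hr | hr
        · exact hsm r hr a ha
        · have := hsm (-r) (by linarith) (-a) ha'
          rwa [smul_neg, neg_smul, neg_neg] at this
      have hd : a x - a y ≠ 0 := sub_ne_zero.2 hne
      refine ⟨_, ⟨_, hadd _ (hsa ((v x - v y) / (a x - a y))) _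
        (hconst (v x - (v x - v y) / (a x - a y) * a x)), _, hconst 0, rfl⟩, ?_, ?_⟩
      · simp
      · simp only [ContinuousMap.sub_apply, ContinuousMap.add_apply, ContinuousMap.smul_apply,
          ContinuousMap.const_apply, smul_eq_mul, sub_zero]
        field_simp
        ring

end Mok

end Mx

theorem exists_maximal_state : MaximalStm := by
  intro X _ _ _ C hadd hsm hsup hconst hsep x1
  obtain ⟨⟨s, hs, hx⟩, hmax⟩ := Mx.exists_max C x1
  refine ⟨{ toFun := s, map_add' := hs.1, map_smul' := fun c g => hs.2.1 c g }, hs.2.2.1,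
    hs.2.2.2, hx, fun g ε hε => ?_⟩
  change ∃ k ∈ C, k ≤ g ∧ s g - ε ≤ s k
  by_cases hg : g = 0
  · subst hg
    refine ⟨_, hconst 0, fun x => by simp, ?_⟩
    have : ContinuousMap.const X (0 : ℝ) = 0 := by ext; simp
    rw [this]
    linarith
  · obtain ⟨ν, hν, hνg⟩ := Mx.exists_nu hs hconst hadd hsm (neg_ne_zero.2 hg)
    have hst : Mx.IsSt (fun h => ν h) := by
      refine ⟨fun _ _ => map_add ν _ _, fun c g => by simp, fun h hh => ?_, ?_⟩
      · have h1 := (hν (-h)).trans (Mx.pp_le hs (u := 0) (by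
          have e : (-0 : C(X, ℝ)) = ContinuousMap.const X 0 := by ext; simp
          rw [e]
          exact hconst 0) (by simpa using hh))
        have h0 : s 0 = 0 := by simpa using hs.2.1 0 0
        rw [map_neg, h0] at h1
        linarith
      · have h1 := (hν 1).trans (Mx.pp_le hs (u := 1) (by
          have e : (-1 : C(X, ℝ)) = ContinuousMap.const X (-1) := by ext; simp
          rw [e]
          exact hconst _) (le_refl _))
        have h2 := (hν (-1)).trans (Mx.pp_le hs (u := -1) (by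
          have e : (- -1 : C(X, ℝ)) = ContinuousMap.const X 1 := by ext; simp
          rw [e]
          exact hconst _) (le_refl _))
        rw [hs.2.2.2] at h1
        rw [hs.neg, hs.2.2.2, map_neg] at h2
        linarith
    have hge : ∀ k ∈ C, s k ≤ ν k := by
      intro k hk
      have h1 := (hν (-k)).trans (Mx.pp_le hs (u := -k) (by rwa [neg_neg]) (le_refl _))
      rw [hs.neg, map_neg] at h1
      linarith
    have hle : ∀ k ∈ C, ν k ≤ s k :=
      hmax ⟨fun h => ν h, hst, fun k hk => (hx k hk).trans (hge k hk)⟩ hge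
    have heq : ∀ h, ν h = s h := by
      intro h
      have hcl : h ∈ closure {h : C(X, ℝ) | ∃ k ∈ C, ∃ l ∈ C, h = k - l} := by
        rw [Mx.dense_diff hconst hadd hsm hsup hsep]
        trivial
      have hsmall : ∀ η : ℝ, 0 < η → |ν h - s h| ≤ 2 * η := by
        intro η hη
        obtain ⟨_, ⟨k, hk, l, hl, rfl⟩, hd⟩ := Metric.mem_closure_iff.1 hcl η hη
        have h1 : ν (k - l) = s (k - l) := by
          rw [map_sub, hs.sub, le_antisymm (hle k hk) (hge k hk),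
            le_antisymm (hle l hl) (hge l hl)]
        have h2 := hst.abs_le (h - (k - l))
        have h3 := hs.abs_le (h - (k - l))
        rw [← dist_eq_norm] at h2 h3
        rw [hs.sub] at h3
        rw [map_sub ν h] at h2
        rw [abs_le] at h2 h3 ⊢
        constructor <;> linarith [h2.1, h2.2, h3.1, h3.2]
      have h4 : |ν h - s h| ≤ 0 := by
        refine le_of_forall_pos_le_add fun η hη => ?_
        have := hsmall (η / 2) (by positivity)
        linarith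
      have h5 := abs_nonpos_iff.1 h4
      linarith
    rw [heq] at hνg
    have hlt : Mx.pp C s (-g) < s (-g) + ε := by rw [← hνg]; linarith
    obtain ⟨_, ⟨u, hu, hgu, rfl⟩, hlt'⟩ := exists_lt_of_csInf_lt
      (Mx.TS_ne s hconst (-g)) hlt
    refine ⟨-u, hu, ?_, ?_⟩
    · exact neg_le.1 hgu
    · rw [hs.neg] at hlt' ⊢
      linarith

end R290.CD
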