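import Mathlib

/-!
Statements of the two functional-analytic pieces of the full answer of MP_06f7ba_an.
-/

open Filter Topology

namespace R290.CD

/-- Piece P1 (Simons inequality, the form needed here). -/
def SimonsStm : Prop :=
  ∀ {X : Type} (f : ℕ → X → ℝ), (∀ n x, 0 ≤ f n x) → (∀ n x, f n x ≤ 1) →
    ∀ (B : Set X),
    (∀ c : ℕ → ℝ, (∀ n, 0 ≤ c n) → Summable c →
      ∃ b ∈ B, ∀ x, ∑' n, c n * f n x ≤ ∑' n, c n * f n b) →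
    ∀ (δ : ℝ), 0 < δ →
    (∀ (s : Finset ℕ) (c : ℕ → ℝ), (∀ n, 0 ≤ c n) → ∑ n ∈ s, c n = 1 →
      ∃ x, δ ≤ ∑ n ∈ s, c n * f n x) →
    ∃ b ∈ B, ∀ N : ℕ, ∃ n, N ≤ n ∧ δ / 2 ≤ f n b

/-- Piece P2 (existence of a state which is maximal in the Choquet order, with the
Mokobodzki property). -/
def MaximalStm : Prop :=
  ∀ {X : Type} [TopologicalSpace X] [CompactSpace X] [T2Space X] (C : Set C(X, ℝ)),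
    (∀ f ∈ C, ∀ g ∈ C, f + g ∈ C) →
    (∀ c : ℝ, 0 ≤ c → ∀ f ∈ C, c • f ∈ C) →
    (∀ f ∈ C, ∀ g ∈ C, f ⊔ g ∈ C) →
    (∀ c : ℝ, ContinuousMap.const X c ∈ C) →
    (∀ x y : X, x ≠ y → ∃ a ∈ C, -a ∈ C ∧ a x ≠ a y) →
    ∀ x1 : X,
    ∃ σ : C(X, ℝ) →ₗ[ℝ] ℝ, (∀ g, 0 ≤ g → 0 ≤ σ g) ∧ σ 1 = 1 ∧ (∀ k ∈ C, k x1 ≤ σ k) ∧
      ∀ g : C(X, ℝ), ∀ ε : ℝ, 0 < ε → ∃ k ∈ C, k ≤ g ∧ σ g - ε ≤ σ k

end R290.CD
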