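import Mathlib
import Pool.Agent.R290.CD.Stm

/-!
Simons inequality (piece P1 of MP_06f7ba_an, helper613).
-/

set_option autoImplicit false

open Filter Topology

namespace R290.CD

namespace Sim

variable {X : Type} (f : ℕ → X → ℝ)

/-- the function with the given coefficients -/
noncomputable def F (c : ℕ → ℝ) (x : X) : ℝ := ∑' k, c k * f k x

/-- nonnegative summable coefficients -/
def Good (c : ℕ → ℝ) : Prop := (∀ k, 0 ≤ c k) ∧ Summable c

/-- countable convex combinations of `f_k`, `k ≥ n` -/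
def CC (n : ℕ) (h : ℕ → ℝ) : Prop := (∀ k, 0 ≤ h k) ∧ HasSum h 1 ∧ ∀ k, k < n → h k = 0

lemma CC.good {n : ℕ} {h : ℕ → ℝ} (H : CC n h) : Good h := ⟨H.1, H.2.1.summable⟩

lemma Good.add {c d : ℕ → ℝ} (hc : Good c) (hd : Good d) : Good (c + d) :=
  ⟨fun k => add_nonneg (hc.1 k) (hd.1 k), hc.2.add hd.2⟩

lemma Good.smul {c : ℕ → ℝ} (hc : Good c) {r : ℝ} (hr : 0 ≤ r) : Good (r • c) :=
  ⟨fun k => by simpa using mul_nonneg hr (hc.1 k), hc.2.mul_left r⟩

lemma Good.zero : Good 0 := ⟨fun _ => le_rfl, summable_zero⟩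

section
variable {f} (h0 : ∀ n x, 0 ≤ f n x) (h1 : ∀ n x, f n x ≤ 1)
include h0 h1

lemma summ {c : ℕ → ℝ} (hc : Good c) (x : X) : Summable fun k => c k * f k x :=
  Summable.of_nonneg_of_le (fun k => mul_nonneg (hc.1 k) (h0 k x))
    (fun k => by nlinarith [hc.1 k, h1 k x]) hc.2

lemma F_add {c d : ℕ → ℝ} (hc : Good c) (hd : Good d) (x : X) :
    F f (c + d) x = F f c x + F f d x := by
  unfold F
  rw [← (summ h0 h1 hc x).tsum_add (summ h0 h1 hd x)]
  congr 1
  ext k
  simp [add_mul]

omit h0 h1 in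
lemma F_smul (c : ℕ → ℝ) (r : ℝ) (x : X) : F f (r • c) x = r * F f c x := by
  unfold F
  rw [← tsum_mul_left]
  congr 1
  ext k
  simp [mul_assoc]

lemma F_mono {c d : ℕ → ℝ} (hc : Good c) (hd : Good d) (h : ∀ k, c k ≤ d k) (x : X) :
    F f c x ≤ F f d x :=
  (summ h0 h1 hc x).tsum_le_tsum (fun k => mul_le_mul_of_nonneg_right (h k) (h0 k x))
    (summ h0 h1 hd x)

omit h1 in
lemma F_nonneg {c : ℕ → ℝ} (hc : Good c) (x : X) : 0 ≤ F f c x :=
  tsum_nonneg fun k => mul_nonneg (hc.1 k) (h0 k x)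

/-- if the mass of `d - c` is at most `M`, the functions differ by at most `M` -/
lemma F_diff {c d : ℕ → ℝ} (hc : Good c) (hd : Good d) (h : ∀ k, c k ≤ d k) {M : ℝ}
    (hM : ∀ s : Finset ℕ, ∑ k ∈ s, (d k - c k) ≤ M) (x : X) :
    F f d x ≤ F f c x + M := by
  have h2 : F f d x - F f c x ≤ M := by
    unfold F
    rw [← (summ h0 h1 hd x).tsum_sub (summ h0 h1 hc x)]
    refine Real.tsum_le_of_sum_le (fun k => ?_) fun s => ?_
    · have := mul_le_mul_of_nonneg_right (h k) (h0 k x)
      simp only [Pi.zero_apply]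
      linarith
    · refine le_trans (Finset.sum_le_sum fun k _ => ?_) (hM s)
      nlinarith [h k, h0 k x, h1 k x]
  linarith

end

end Sim

open Sim in
theorem simons : SimonsStm := by
  intro X f h0 h1 B hB δ hδ hco
  -- `δ ≤ 1`
  have hδ1 : δ ≤ 1 := by
    obtain ⟨x, hx⟩ := hco {0} (fun _ => 1) (fun _ => zero_le_one) (by simp)
    simp only [Finset.sum_singleton, one_mul] at hx
    exact hx.trans (h1 0 x)
  -- maximum points
  have hB' : ∀ c : ℕ → ℝ, ∃ b, Good c → b ∈ B ∧ ∀ x, F f c x ≤ F f c b := by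
    intro c
    by_cases hc : Good c
    · obtain ⟨b, hb, hb'⟩ := hB c hc.1 hc.2
      exact ⟨b, fun _ => ⟨hb, hb'⟩⟩
    · obtain ⟨b, hb, -⟩ := hB 0 (fun _ => le_rfl) summable_zero
      exact ⟨b, fun h => absurd h hc⟩
  choose b hb using hB'
  set P : (ℕ → ℝ) → ℝ := fun c => F f c (b c) with hP
  have Ple : ∀ c, Good c → ∀ x, F f c x ≤ P c := fun c hc x => (hb c hc).2 x
  have Pnn : ∀ c, Good c → 0 ≤ P c := fun c hc => F_nonneg h0 hc _
  -- lower bound
  have Pge : ∀ h, CC 0 h → δ ≤ P h := by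
    intro h hh
    have hg := hh.good
    have hlim : Tendsto (fun m => (∑ k ∈ Finset.range m, h k) * δ) atTop (𝓝 (1 * δ)) :=
      (hh.2.1.tendsto_sum_nat).mul_const δ
    rw [one_mul] at hlim
    refine le_of_tendsto' hlim fun m => ?_
    rcases (Finset.sum_nonneg fun k (_ : k ∈ Finset.range m) => hg.1 k).eq_or_lt with hz | hz
    · rw [← hz, zero_mul]; exact Pnn h hg
    · obtain ⟨x, hx⟩ := hco (Finset.range m) (fun k => h k / ∑ k ∈ Finset.range m, h k)
        (fun k => div_nonneg (hg.1 k) hz.le) (by rw [← Finset.sum_div, div_self hz.ne'])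
      refine le_trans ?_ (Ple h hg x)
      have h3 : ∑ k ∈ Finset.range m, h k / (∑ k ∈ Finset.range m, h k) * f k x =
          (∑ k ∈ Finset.range m, h k * f k x) / ∑ k ∈ Finset.range m, h k := by
        rw [Finset.sum_div]
        exact Finset.sum_congr rfl fun k _ => by ring
      rw [h3, le_div_iff₀ hz] at hx
      rw [mul_comm]
      exact hx.trans ((summ h0 h1 hg x).sum_le_tsum _ fun k _ => mul_nonneg (hg.1 k) (h0 k x))
  set lam : ℝ := δ / 8 with hlam
  have lam0 : 0 < lam := by positivity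
  have lam1 : lam ≤ 1 / 8 := by rw [hlam]; linarith
  set ε : ℕ → ℝ := fun n => lam ^ (n + 1) * (δ / 16) * (1 / 2) ^ (n + 1) with hε
  have hε0 : ∀ n, 0 < ε n := fun n => by positivity
  -- near minimisers
  have hch : ∀ (n : ℕ) (c : ℕ → ℝ), ∃ h, CC n h ∧ (Good c →
      ∀ h', CC n h' → P (c + lam ^ n • h) ≤ P (c + lam ^ n • h') + ε n) := by
    intro n c
    have hne : CC n (Pi.single n 1) := by
      refine ⟨fun k => ?_, hasSum_pi_single n 1, fun k hk => ?_⟩
      · by_cases hk : k = n
        · subst hk; simp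
        · simp [Pi.single_eq_of_ne hk]
      · simp [Pi.single_eq_of_ne hk.ne]
    by_cases hc : Good c
    · have hbdd : BddBelow ((fun h => P (c + lam ^ n • h)) '' {h | CC n h}) := by
        refine ⟨0, ?_⟩
        rintro _ ⟨h, hh, rfl⟩
        exact Pnn _ (hc.add (CC.good hh |>.smul (by positivity)))
      obtain ⟨v, ⟨h, hh, rfl⟩, hv⟩ := exists_lt_of_csInf_lt
        (s := (fun h => P (c + lam ^ n • h)) '' {h | CC n h}) ⟨_, _, hne, rfl⟩
        (lt_add_of_pos_right _ (hε0 n))
      refine ⟨h, hh, fun _ h' hh' => ?_⟩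
      have := csInf_le hbdd ⟨h', hh', rfl⟩
      simp only at hv this ⊢
      linarith
    · exact ⟨_, hne, fun h => absurd h hc⟩
  choose ch hch1 hch2 using hch
  set H : ℕ → (ℕ → ℝ) := fun n => Nat.rec 0 (fun n c => c + lam ^ n • ch n c) n with hH
  set h : ℕ → (ℕ → ℝ) := fun n => ch n (H n) with hh
  have Hs : ∀ n, H (n + 1) = H n + lam ^ n • h n := fun n => rfl
  have H0 : H 0 = 0 := rfl
  have hC : ∀ n, CC n (h n) := fun n => hch1 n _
  have Hg : ∀ n, Good (H n) := by
    intro n
    induction n with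
    | zero => exact Good.zero
    | succ n ih => rw [Hs]; exact ih.add ((hC n).good.smul (by positivity))
  have hopt : ∀ n h', CC n h' → P (H (n + 1)) ≤ P (H n + lam ^ n • h') + ε n :=
    fun n h' hh' => hch2 n (H n) (Hg n) h' hh'
  -- three term inequality
  have three : ∀ n, (1 + lam) * P (H (n + 1)) ≤
      P (H (n + 2)) + lam * P (H n) + (1 + lam) * ε n := by
    intro n
    have hl : 0 < 1 + lam := by linarith
    set h' : ℕ → ℝ := (1 / (1 + lam)) • (h n + lam • h (n + 1)) with hh'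
    have hC' : CC n h' := by
      refine ⟨fun k => ?_, ?_, fun k hk => ?_⟩
      · have a1 := (hC n).1 k
        have a2 := (hC (n + 1)).1 k
        simp only [hh', Pi.smul_apply, Pi.add_apply, smul_eq_mul]
        positivity
      · have a1 := (hC n).2.1
        have a2 := (hC (n + 1)).2.1
        have a3 := (a1.add (a2.mul_left lam)).mul_left (1 / (1 + lam))
        have e : (1 / (1 + lam)) * (1 + lam * 1) = 1 := by field_simp
        rw [e] at a3
        exact a3
      · simp [hh', (hC n).2.2 k hk, (hC (n + 1)).2.2 k (by omega)]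
    have key := hopt n h' hC'
    have e1 : H n + lam ^ n • h' = (1 / (1 + lam)) • (H (n + 2) + lam • H n) := by
      rw [Hs (n + 1), Hs n]
      ext k
      simp only [hh', Pi.smul_apply, Pi.add_apply, smul_eq_mul]
      field_simp
      ring
    have e2 : P ((1 / (1 + lam)) • (H (n + 2) + lam • H n)) ≤
        (1 / (1 + lam)) * (P (H (n + 2)) + lam * P (H n)) := by
      simp only [hP]
      rw [F_smul, F_add h0 h1 (Hg (n + 2)) ((Hg n).smul lam0.le), F_smul]
      apply mul_le_mul_of_nonneg_left _ (by positivity)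
      exact add_le_add (Ple (H (n + 2)) (Hg (n + 2)) _)
        (mul_le_mul_of_nonneg_left (Ple (H n) (Hg n) _) lam0.le)
    rw [e1] at key
    have := key.trans (add_le_add_left e2 _)
    have h4 := mul_le_mul_of_nonneg_left this hl.le
    have e3 : (1 + lam) * (1 / (1 + lam) * (P (H (n + 2)) + lam * P (H n)) + ε n) =
        P (H (n + 2)) + lam * P (H n) + (1 + lam) * ε n := by field_simp
    linarith
  -- growth
  have growth : ∀ n, lam ^ n * (δ - δ / 8 * (1 - (1 / 2) ^ n)) ≤ P (H (n + 1)) - P (H n) := by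
    intro n
    induction n with
    | zero =>
      have e1 : P (H 0) = 0 := by
        simp [hP, H0, F]
      have e2 : H (0 + 1) = h 0 := by rw [Hs, H0]; simp
      rw [e1, e2]
      have := Pge (h 0) (hC 0)
      simpa using this
    | succ n ih =>
      have h3 := three n
      have h4 : (1 + lam) * ε n ≤ lam ^ (n + 1) * (δ / 8) * (1 / 2) ^ (n + 1) := by
        have : (1 + lam) * ε n ≤ 2 * ε n := mul_le_mul_of_nonneg_right (by linarith) (hε0 n).le
        refine this.trans (le_of_eq ?_)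
        simp only [hε]; ring
      have h5 := mul_le_mul_of_nonneg_left ih lam0.le
      have h6 : lam * (lam ^ n * (δ - δ / 8 * (1 - (1 / 2) ^ n))) -
          lam ^ (n + 1) * (δ / 8) * (1 / 2) ^ (n + 1) =
          lam ^ (n + 1) * (δ - δ / 8 * (1 - (1 / 2) ^ (n + 1))) := by
        have : ((1 : ℝ) / 2) ^ n = 2 * (1 / 2) ^ (n + 1) := by rw [pow_succ]; ring
        rw [this]; ring
      rw [← h6]
      linarith
  have growth' : ∀ n, lam ^ n * (7 / 8 * δ) ≤ P (H (n + 1)) - P (H n) := by
    intro n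
    refine le_trans ?_ (growth n)
    apply mul_le_mul_of_nonneg_left _ (by positivity)
    have : (0 : ℝ) ≤ (1 / 2) ^ n := by positivity
    nlinarith
  -- masses
  have Hmono : ∀ k, Monotone fun n => H n k := by
    intro k
    refine monotone_nat_of_le_succ fun n => ?_
    rw [Hs]
    have := (hC n).1 k
    simp only [Pi.add_apply, Pi.smul_apply, smul_eq_mul]
    have : 0 ≤ lam ^ n * h n k := by positivity
    linarith
  have mass : ∀ n m, n ≤ m → ∀ s : Finset ℕ, ∑ k ∈ s, (H m k - H n k) ≤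
      (lam ^ n - lam ^ m) / (1 - lam) := by
    intro n m hnm s
    induction m, hnm using Nat.le_induction with
    | base => simp
    | succ m hm ih =>
      have e1 : ∑ k ∈ s, (H (m + 1) k - H n k) =
          ∑ k ∈ s, (H m k - H n k) + lam ^ m * ∑ k ∈ s, h m k := by
        rw [Finset.mul_sum, ← Finset.sum_add_distrib]
        refine Finset.sum_congr rfl fun k _ => ?_
        rw [Hs]
        simp only [Pi.add_apply, Pi.smul_apply, smul_eq_mul]
        ring
      have e2 : ∑ k ∈ s, h m k ≤ 1 := sum_le_hasSum s (fun k _ => (hC m).1 k) (hC m).2.1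
      have e3 : lam ^ m * ∑ k ∈ s, h m k ≤ lam ^ m * 1 :=
        mul_le_mul_of_nonneg_left e2 (by positivity)
      have e4 : (lam ^ n - lam ^ (m + 1)) / (1 - lam) =
          (lam ^ n - lam ^ m) / (1 - lam) + lam ^ m := by
        have : 1 - lam ≠ 0 := by linarith
        field_simp
        ring
      rw [e1, e4]
      linarith
  have hl1 : 0 < 1 - lam := by linarith
  have mass' : ∀ n m, n ≤ m → ∀ s : Finset ℕ, ∑ k ∈ s, (H m k - H n k) ≤ lam ^ n / (1 - lam) := by
    intro n m hnm s
    refine (mass n m hnm s).trans ?_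
    apply div_le_div_of_nonneg_right _ hl1.le
    have : 0 ≤ lam ^ m := by positivity
    linarith
  have bdd : ∀ k, BddAbove (Set.range fun n => H n k) := by
    intro k
    refine ⟨lam ^ 0 / (1 - lam), ?_⟩
    rintro _ ⟨n, rfl⟩
    have := mass' 0 n (Nat.zero_le n) {k}
    simpa [H0] using this
  set G : ℕ → ℝ := fun k => ⨆ n, H n k with hG
  have lim : ∀ k, Tendsto (fun n => H n k) atTop (𝓝 (G k)) :=
    fun k => tendsto_atTop_ciSup (Hmono k) (bdd k)
  have HG : ∀ n k, H n k ≤ G k := fun n k => le_ciSup (bdd k) n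
  have massG : ∀ n, ∀ s : Finset ℕ, ∑ k ∈ s, (G k - H n k) ≤ lam ^ n / (1 - lam) := by
    intro n s
    have ht : Tendsto (fun m => ∑ k ∈ s, (H m k - H n k)) atTop (𝓝 (∑ k ∈ s, (G k - H n k))) :=
      tendsto_finsetSum _ fun k _ => (lim k).sub_const _
    refine le_of_tendsto ht ?_
    filter_upwards [eventually_ge_atTop n] with m hm
    exact mass' n m hm s
  have Gg : Good G := by
    refine ⟨fun k => ?_, ?_⟩
    · have := HG 0 k
      simpa [H0] using this
    · refine summable_of_sum_le (c := lam ^ 0 / (1 - lam)) (fun k => ?_) fun s => ?_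
      · have := HG 0 k
        simpa [H0] using this
      · have := massG 0 s
        simpa [H0] using this
  refine ⟨b G, (hb G Gg).1, fun N => ?_⟩
  -- the value of `h_N` at the maximum point
  have v1 : P (H (N + 1)) ≤ P G :=
    (F_mono h0 h1 (Hg (N + 1)) Gg (HG (N + 1)) (b (H (N + 1)))).trans (Ple _ Gg _)
  have v2 := growth' N
  have v3 : P G ≤ F f (H (N + 1)) (b G) + lam ^ (N + 1) / (1 - lam) :=
    F_diff h0 h1 (Hg (N + 1)) Gg (HG (N + 1)) (massG (N + 1)) (b G)
  have v4 : F f (H (N + 1)) (b G) = F f (H N) (b G) + lam ^ N * F f (h N) (b G) := by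
    rw [Hs, F_add h0 h1 (Hg N) ((hC N).good.smul (by positivity)), F_smul]
  have v5 : F f (H N) (b G) ≤ P (H N) := Ple (H N) (Hg N) _
  have v6 : lam ^ N * (7 / 8 * δ - lam / (1 - lam)) ≤ lam ^ N * F f (h N) (b G) := by
    have : lam ^ (N + 1) / (1 - lam) = lam ^ N * (lam / (1 - lam)) := by rw [pow_succ]; ring
    rw [this] at v3
    linarith
  have v7 : 7 / 8 * δ - lam / (1 - lam) ≤ F f (h N) (b G) :=
    le_of_mul_le_mul_left v6 (by positivity)
  have v8 : lam / (1 - lam) ≤ δ / 7 := by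
    rw [div_le_iff₀ hl1]
    rw [hlam]
    nlinarith
  by_contra hcon
  push Not at hcon
  have v9 : F f (h N) (b G) ≤ δ / 2 := by
    have hs : HasSum (fun k => h N k * (δ / 2)) (1 * (δ / 2)) := (hC N).2.1.mul_right _
    rw [one_mul] at hs
    rw [← hs.tsum_eq]
    refine (summ h0 h1 (hC N).good _).tsum_le_tsum (fun k => ?_) hs.summable
    by_cases hk : N ≤ k
    · exact mul_le_mul_of_nonneg_left (hcon k hk).le ((hC N).1 k)
    · rw [(hC N).2.2 k (by omega)]; simp
  linarith

end R290.CD
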