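import Pool.Agent.R290.CD.Baire
import Pool.Agent.R290.CD.Simons
import Pool.Agent.R290.CD.Maximal

/-!
The Bishop-de Leeuw theorem: every point of a compact convex set is represented by a Baire
probability measure which vanishes on the Baire sets disjoint from the extreme points.
-/

open Filter Topology MeasureTheory Set

namespace R290.CD

set_option linter.style.haveILetI false

variable {E : Type} [AddCommGroup E] [Module ℝ E] [TopologicalSpace E] [T2Space E]
  [IsTopologicalAddGroup E] [ContinuousSMul ℝ E] [LocallyConvexSpace ℝ E]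

/-- Continuous convex functions on a set `K`. -/
def Cvx (K : Set E) : Set C(K, ℝ) :=
  {g | ∀ (x y z : K) (a b : ℝ), 0 ≤ a → 0 ≤ b → a + b = 1 → (z : E) = a • (x : E) + b • (y : E) →
    g z ≤ a * g x + b * g y}

/-- Bauer's maximum principle. -/
lemma bauer {K : Set E} (hK : IsCompact K) (hne : K.Nonempty) {h : C(K, ℝ)} (hh : h ∈ Cvx K) :
    ∃ b : K, (b : E) ∈ K.extremePoints ℝ ∧ ∀ x, h x ≤ h b := by
  haveI : CompactSpace K := isCompact_iff_compactSpace.1 hK
  haveI : Nonempty K := hne.to_subtype
  obtain ⟨x₀, -, hx₀⟩ := isCompact_univ.exists_isMaxOn univ_nonempty h.continuous.continuousOn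
  have hmax : ∀ x, h x ≤ h x₀ := fun x => hx₀ (mem_univ x)
  let S : Set E := Subtype.val '' (h ⁻¹' {h x₀})
  have hSc : IsCompact S := by
    refine IsCompact.image ?_ continuous_subtype_val
    exact (isClosed_singleton.preimage h.continuous).isCompact
  have hSe : IsExtreme ℝ K S := by
    refine ⟨?_, ?_⟩
    · rintro _ ⟨x, -, rfl⟩; exact x.2
    · rintro x hx y hy z ⟨z', hz', rfl⟩ ⟨a, b, ha, hb, hab, hz⟩
      have h1 := hh ⟨x, hx⟩ ⟨y, hy⟩ z' a b ha.le hb.le hab hz.symm
      have h2 : h z' = h x₀ := hz'
      refine ⟨⟨x, hx⟩, ?_, rfl⟩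
      change h ⟨x, hx⟩ = h x₀
      refine le_antisymm (hmax _) ?_
      by_contra hlt
      push Not at hlt
      have h3 := mul_lt_mul_of_pos_left hlt ha
      have h4 := mul_le_mul_of_nonneg_left (hmax ⟨y, hy⟩) hb.le
      have h5 : a * h x₀ + b * h x₀ = h x₀ := by rw [← add_mul, hab, one_mul]
      linarith
  obtain ⟨b, hb⟩ := hSc.extremePoints_nonempty ⟨x₀, x₀, rfl, rfl⟩
  obtain ⟨b', hb', hbb⟩ := hb.1
  refine ⟨b', ?_, fun x => ?_⟩
  · rw [hbb]; exact hSe.extremePoints_subset_extremePoints hb
  · have : h b' = h x₀ := hb'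
    rw [this]; exact hmax x

theorem bdl {K : Set E} (hK : IsCompact K) (x1 : K) :
    ∃ μ : @Measure K (baireMS K), μ univ = 1 ∧
      (∀ φ : E →L[ℝ] ℝ, ∫ x : K, φ (x : E) ∂μ = φ x1) ∧
      ∀ B : Set K, MeasurableSet[baireMS K] B → (∀ x ∈ B, (x : E) ∉ K.extremePoints ℝ) →
        μ B = 0 := by
  haveI : CompactSpace K := isCompact_iff_compactSpace.1 hK
  haveI : Nonempty K := ⟨x1⟩
  have hne : K.Nonempty := ⟨x1, x1.2⟩
  -- affine functions
  let aff : (E →L[ℝ] ℝ) → C(K, ℝ) := fun φ => ⟨fun x => φ x, by fun_prop⟩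
  have haff : ∀ φ, aff φ ∈ Cvx K := by
    intro φ x y z a b ha hb hab hz
    change φ z ≤ a * φ x + b * φ y
    rw [hz]; simp
  have haffn : ∀ φ, -aff φ ∈ Cvx K := by
    intro φ x y z a b ha hb hab hz
    change -φ z ≤ a * (-φ x) + b * (-φ y)
    rw [hz]; simp only [map_add, map_smul, smul_eq_mul]; linarith
  obtain ⟨σ, hσpos, hσ1, hσx, hσmax⟩ := exists_maximal_state (Cvx K)
    (by
      intro f hf g hg x y z a b ha hb hab hz
      have h1 := hf x y z a b ha hb hab hz
      have h2 := hg x y z a b ha hb hab hz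
      simp only [ContinuousMap.add_apply]; linarith)
    (by
      intro c hc f hf x y z a b ha hb hab hz
      have h1 := mul_le_mul_of_nonneg_left (hf x y z a b ha hb hab hz) hc
      simp only [ContinuousMap.smul_apply, smul_eq_mul]; linarith)
    (by
      intro f hf g hg x y z a b ha hb hab hz
      have h1 := hf x y z a b ha hb hab hz
      have h2 := hg x y z a b ha hb hab hz
      simp only [ContinuousMap.sup_apply]
      refine sup_le ?_ ?_
      · refine h1.trans (add_le_add (mul_le_mul_of_nonneg_left le_sup_left ha)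
          (mul_le_mul_of_nonneg_left le_sup_left hb))
      · refine h2.trans (add_le_add (mul_le_mul_of_nonneg_left le_sup_right ha)
          (mul_le_mul_of_nonneg_left le_sup_right hb)))
    (by
      intro c x y z a b ha hb hab hz
      simp only [ContinuousMap.const_apply]
      rw [← add_mul, hab, one_mul])
    (by
      intro x y hxy
      obtain ⟨φ, hφ⟩ := geometric_hahn_banach_point_point (E := E)
        (show (x : E) ≠ y from fun h => hxy (Subtype.ext h))
      exact ⟨aff φ, haff φ, haffn φ, hφ.ne⟩)
    x1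
  obtain ⟨μ, hμ1, hμ⟩ := riesz σ hσpos hσ1
  have hfin : IsFiniteMeasure μ := ⟨by rw [hμ1]; exact ENNReal.one_lt_top⟩
  refine ⟨μ, hμ1, ?_, ?_⟩
  · intro φ
    have h1 := hμ (aff φ)
    have h2 := hσx _ (haff φ)
    have h3 := hσx _ (haffn φ)
    rw [map_neg] at h3
    have h4 : σ (aff φ) = φ x1 := by
      change φ x1 ≤ σ (aff φ) at h2
      change -φ x1 ≤ -σ (aff φ) at h3
      linarith
    rw [← h4, ← h1]
    rfl
  · intro B hB hBext
    by_contra hpos
    obtain ⟨Φ, hΦ, B', hB', rfl⟩ := baire_factor hB
    have hΦm : Measurable[baireMS K] Φ := by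
      refine @measurable_pi_lambda _ _ _ (baireMS K) _ _ fun n => ?_
      exact measurable_baire (X := K) ⟨fun x => Φ x n, (continuous_apply n).comp hΦ⟩
    let ν : Measure (ℕ → ℝ) := @Measure.map _ _ (baireMS K) _ Φ μ
    have hνfin : IsFiniteMeasure ν := by
      refine ⟨?_⟩
      rw [Measure.map_apply hΦm MeasurableSet.univ]
      exact measure_lt_top _ _
    have hνB : ν B' ≠ 0 := by
      rw [Measure.map_apply hΦm hB']; exact hpos
    obtain ⟨F, hFB, hFc, hF⟩ := hB'.exists_lt_isClosed_of_ne_top (μ := ν) (measure_ne_top _ _)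
      (pos_iff_ne_zero.2 hνB)
    have hFm : MeasurableSet F := hFc.measurableSet
    letI := TopologicalSpace.pseudoMetrizableSpacePseudoMetric (ℕ → ℝ)
    have hFne : F.Nonempty := by
      rw [nonempty_iff_ne_empty]; rintro rfl; simp at hF
    set Z : Set K := Φ ⁻¹' F with hZdef
    have hZm : MeasurableSet[baireMS K] Z := hΦm hFm
    set δ : ℝ := (μ Z).toReal with hδdef
    have hδ : 0 < δ := by
      refine ENNReal.toReal_pos ?_ (measure_ne_top _ _)
      rw [Measure.map_apply hΦm hFm] at hF
      exact hF.ne'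
    -- the functions g n
    let g : ℕ → C(K, ℝ) := fun n =>
      ⟨fun x => max 0 (1 - n * Metric.infDist (Φ x) F), by
        refine continuous_const.max (continuous_const.sub (continuous_const.mul ?_))
        exact (Metric.continuous_infDist_pt F).comp hΦ⟩
    have hgle : ∀ n x, g n x ≤ 1 := by
      intro n x
      refine max_le zero_le_one ?_
      have : 0 ≤ (n : ℝ) * Metric.infDist (Φ x) F :=
        mul_nonneg (Nat.cast_nonneg _) Metric.infDist_nonneg
      linarith
    have hg0 : ∀ n x, 0 ≤ g n x := fun n x => le_max_left _ _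
    have hgZ : ∀ n, ∀ x ∈ Z, g n x = 1 := by
      intro n x hx
      change max 0 (1 - n * Metric.infDist (Φ x) F) = 1
      rw [Metric.infDist_zero_of_mem (show Φ x ∈ F from hx)]; simp
    have hgev : ∀ x, x ∉ Z → ∃ N : ℕ, ∀ n, N ≤ n → g n x = 0 := by
      intro x hx
      have hd : 0 < Metric.infDist (Φ x) F :=
        (hFc.notMem_iff_infDist_pos hFne).1 (show Φ x ∉ F from hx)
      obtain ⟨N, hN⟩ := exists_nat_gt (1 / Metric.infDist (Φ x) F)
      refine ⟨N, fun n hn => max_eq_left ?_⟩
      rw [div_lt_iff₀ hd] at hN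
      have : (N : ℝ) * Metric.infDist (Φ x) F ≤ n * Metric.infDist (Φ x) F :=
        mul_le_mul_of_nonneg_right (by exact_mod_cast hn) hd.le
      linarith
    have hσg : ∀ n, δ ≤ σ (g n) := by
      intro n
      rw [← hμ (g n)]
      have hint : Integrable (fun x => g n x) μ := by
        refine Integrable.of_bound (C := 1)
          ((measurable_baire (g n)).aestronglyMeasurable) ?_
        refine Eventually.of_forall fun x => ?_
        rw [Real.norm_eq_abs, abs_of_nonneg (hg0 n x)]
        exact hgle n x
      have h1 : δ = ∫ x, Z.indicator (fun _ => (1 : ℝ)) x ∂μ := by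
        rw [integral_indicator hZm]
        simp [hδdef, measureReal_def]
      rw [h1]
      refine integral_mono ((integrable_const 1).indicator hZm) hint fun x => ?_
      by_cases hx : x ∈ Z
      · simp only [indicator_of_mem hx]
        exact (hgZ n x hx).ge
      · simp only [indicator_of_notMem hx]
        exact hg0 n x
    -- minorants
    choose k hkC hkle hkσ using fun n => hσmax (g n) (δ / 2) (by linarith)
    have hzero : (0 : C(K, ℝ)) ∈ Cvx K := by
      intro x y z a b _ _ _ _; simp
    let f : ℕ → C(K, ℝ) := fun n => k n ⊔ 0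
    have hfC : ∀ n, f n ∈ Cvx K := by
      intro n x y z a b ha hb hab hz
      have h1 := hkC n x y z a b ha hb hab hz
      change max (k n z) 0 ≤ a * max (k n x) 0 + b * max (k n y) 0
      refine max_le ?_ ?_
      · exact h1.trans (add_le_add (mul_le_mul_of_nonneg_left (le_max_left _ _) ha)
          (mul_le_mul_of_nonneg_left (le_max_left _ _) hb))
      · exact add_nonneg (mul_nonneg ha (le_max_right _ _)) (mul_nonneg hb (le_max_right _ _))
    have hf0 : ∀ n x, 0 ≤ f n x := fun n x => le_max_right _ _
    have hfg : ∀ n x, f n x ≤ g n x := fun n x => max_le (hkle n x) (hg0 n x)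
    have hf1 : ∀ n x, f n x ≤ 1 := fun n x => (hfg n x).trans (hgle n x)
    have hmono : ∀ p q : C(K, ℝ), p ≤ q → σ p ≤ σ q := by
      intro p q hpq
      have := hσpos (q - p) (sub_nonneg.2 hpq)
      rw [map_sub] at this; linarith
    have hfσ : ∀ n, δ / 2 ≤ σ (f n) := by
      intro n
      have h1 := hmono (k n) (f n) (fun x => le_max_left _ _)
      have h2 := hσg n
      have h3 := hkσ n
      linarith
    obtain ⟨b, hbext, hb⟩ := simons (X := K) (fun n x => f n x) hf0 hf1
      {x | (x : E) ∈ K.extremePoints ℝ}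
      (by
        intro c hc hcs
        have hbd : ∀ n (x : K), ‖c n * f n x‖ ≤ c n := by
          intro n x
          rw [Real.norm_eq_abs, abs_of_nonneg (mul_nonneg (hc n) (hf0 n x))]
          exact mul_le_of_le_one_right (hc n) (hf1 n x)
        have hsum : ∀ x : K, Summable fun n => c n * f n x := fun x =>
          Summable.of_norm_bounded hcs (fun n => hbd n x)
        let h : C(K, ℝ) := ⟨fun x => ∑' n, c n * f n x,
          continuous_tsum (fun n => continuous_const.mul (f n).continuous) hcs hbd⟩
        have hh : h ∈ Cvx K := by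
          intro x y z a b ha hb hab hz
          change ∑' n, c n * f n z ≤ a * ∑' n, c n * f n x + b * ∑' n, c n * f n y
          rw [← tsum_mul_left, ← tsum_mul_left,
            ← Summable.tsum_add ((hsum x).mul_left a) ((hsum y).mul_left b)]
          refine Summable.tsum_le_tsum (fun n => ?_) (hsum z)
            (((hsum x).mul_left a).add ((hsum y).mul_left b))
          have := mul_le_mul_of_nonneg_left (hfC n x y z a b ha hb hab hz) (hc n)
          linarith
        obtain ⟨b, hb1, hb2⟩ := bauer hK hne hh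
        exact ⟨b, hb1, hb2⟩)
      (δ / 2) (by linarith)
      (by
        intro s c hc hsum
        let h : C(K, ℝ) := ∑ n ∈ s, c n • f n
        have hval : ∀ x, h x = ∑ n ∈ s, c n * f n x := by
          intro x; simp [h, ContinuousMap.sum_apply]
        obtain ⟨x₀, -, hx₀⟩ := isCompact_univ.exists_isMaxOn univ_nonempty
          h.continuous.continuousOn
        refine ⟨x₀, ?_⟩
        rw [← hval x₀]
        have h1 : σ h ≤ h x₀ := by
          have : h ≤ (h x₀) • (1 : C(K, ℝ)) := by
            intro x
            simpa using hx₀ (mem_univ x)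
          have := hmono _ _ this
          rwa [map_smul, hσ1, smul_eq_mul, mul_one] at this
        have h2 : δ / 2 ≤ σ h := by
          have h3 : σ h = ∑ n ∈ s, c n * σ (f n) := by
            simp [h, map_sum, map_smul]
          rw [h3]
          calc δ / 2 = ∑ n ∈ s, c n * (δ / 2) := by rw [← Finset.sum_mul, hsum, one_mul]
            _ ≤ _ := Finset.sum_le_sum fun n _ => mul_le_mul_of_nonneg_left (hfσ n) (hc n)
        exact h2.trans h1)
    have hbZ : b ∉ Z := fun h => hBext b (hFB h) hbext
    obtain ⟨N, hN⟩ := hgev b hbZ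
    obtain ⟨n, hn, hn2⟩ := hb N
    have h1 := hfg n b
    rw [hN n hn] at h1
    linarith

end R290.CD
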