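import Mathlib

/-!
Points in the G_delta-closure of the extreme boundary, by a maximal filter of closed fibrewise
extreme subsets over a linear order in which increasing sequences have suprema.
-/

open Filter Topology Set

namespace R290.CD

set_option linter.unusedSectionVars false

section
variable {J : Type*} [LinearOrder J] [TopologicalSpace J] [OrderTopology J]
variable {E : Type*} [TopologicalSpace E]

/-- Unbounded first projection. -/
def Unb (S : Set (J × E)) : Prop := ∀ β : J, ∃ α, β < α ∧ ∃ x, (α, x) ∈ S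

lemma unb_iInter (hJ : ∀ a : ℕ → J, StrictMono a → ∃ l, IsLUB (range a) l)
    {K : Set E} (hK : IsCompact K) (T : ℕ → Set (J × E)) (hT : Antitone T)
    (hc : ∀ n, IsClosed (T n)) (hTK : ∀ n, ∀ p ∈ T n, p.2 ∈ K) (hu : ∀ n, Unb (T n)) :
    Unb (⋂ n, T n) := by
  intro β
  -- build the sequence
  choose F hF hF' using hu
  let a : ℕ → J := fun n => Nat.rec (F 0 β) (fun n x => F (n + 1) x) n
  have ha0 : a 0 = F 0 β := rfl
  have has : ∀ n, a (n + 1) = F (n + 1) (a n) := fun n => rfl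
  have hmono : StrictMono a := strictMono_nat_of_lt_succ fun n => by rw [has]; exact hF _ _
  have haT : ∀ n, ∃ x, (a n, x) ∈ T n := by
    intro n
    cases n with
    | zero => exact hF' 0 β
    | succ n => rw [has]; exact hF' _ _
  choose m hm using haT
  obtain ⟨l, hl⟩ := hJ a hmono
  have hal : Tendsto a atTop (𝓝 l) := tendsto_atTop_isLUB hmono.monotone hl
  have hβl : β < l := lt_of_lt_of_le (hF 0 β) (hl.1 ⟨0, rfl⟩)
  refine ⟨l, hβl, ?_⟩
  let U : Ultrafilter ℕ := hyperfilter ℕ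
  have hU : (U : Filter ℕ) ≤ atTop := by
    rw [← Nat.cofinite_eq_atTop]; exact hyperfilter_le_cofinite
  have hmK : (U.map m : Filter E) ≤ 𝓟 K := by
    rw [le_principal_iff]
    exact Filter.mem_map.2 (univ_mem' fun n => hTK n _ (hm n))
  obtain ⟨x, hxK, hx⟩ := isCompact_iff_ultrafilter_le_nhds.1 hK (U.map m) hmK
  refine ⟨x, mem_iInter.2 fun n => ?_⟩
  have h1 : Tendsto (fun k => (a k, m k)) (U : Filter ℕ) (𝓝 (l, x)) := by
    rw [nhds_prod_eq]
    exact (hal.mono_left hU).prodMk hx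
  refine (hc n).mem_of_tendsto h1 ?_
  have : ∀ᶠ k in atTop, (a k, m k) ∈ T n := by
    filter_upwards [eventually_ge_atTop n] with k hk
    exact hT hk (hm k)
  exact hU this

end

section
variable {J : Type*} [LinearOrder J] [TopologicalSpace J] [OrderTopology J] [Nonempty J]
variable {E : Type*} [AddCommGroup E] [Module ℝ E] [TopologicalSpace E]

/-- Closed fibrewise extreme subsets of `Y`. -/
structure Good (K : Set E) (Y S : Set (J × E)) : Prop where
  closed : IsClosed S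
  sub : S ⊆ Y
  ext : ∀ α : J, IsExtreme ℝ K {x | (α, x) ∈ S}

lemma Good.inter {K : Set E} {Y S T : Set (J × E)} (hS : Good K Y S) (hT : Good K Y T) :
    Good K Y (S ∩ T) :=
  ⟨hS.closed.inter hT.closed, inter_subset_left.trans hS.sub,
    fun α => (hS.ext α).inter (hT.ext α)⟩

lemma Good.mem {K : Set E} {Y S : Set (J × E)} (hS : Good K Y S) : ∀ p ∈ S, p.2 ∈ K :=
  fun p hp => (hS.ext p.1).subset hp

/-- A filter base of good sets. -/
structure Base (K : Set E) (Y : Set (J × E)) (𝒢 : Set (Set (J × E))) : Prop where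
  good : ∀ S ∈ 𝒢, Good K Y S
  unb : ∀ S ∈ 𝒢, Unb S
  memY : Y ∈ 𝒢
  inter : ∀ S ∈ 𝒢, ∀ T ∈ 𝒢, S ∩ T ∈ 𝒢

variable [T2Space E] [IsTopologicalAddGroup E] [ContinuousSMul ℝ E] [LocallyConvexSpace ℝ E]

theorem exists_maximal_base {K : Set E} {Y : Set (J × E)} (hY : Good K Y Y) (hYu : Unb Y) :
    ∃ 𝒢 : Set (Set (J × E)), Base K Y 𝒢 ∧ ∀ ℋ, Base K Y ℋ → 𝒢 ⊆ ℋ → ℋ ⊆ 𝒢 := by
  have h0 : Base K Y {Y} := by
    refine ⟨?_, ?_, rfl, ?_⟩
    · rintro S rfl; exact hY
    · rintro S rfl; exact hYu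
    · rintro S rfl T rfl; simp
  have H : ∀ c ⊆ {𝒢 : Set (Set (J × E)) | Base K Y 𝒢}, IsChain (· ⊆ ·) c → c.Nonempty →
      ∃ ub ∈ {𝒢 : Set (Set (J × E)) | Base K Y 𝒢}, ∀ s ∈ c, s ⊆ ub := by
    intro c hc hchain hne
    refine ⟨⋃₀ c, ?_, fun s hs => subset_sUnion_of_mem hs⟩
    obtain ⟨𝒢₀, h𝒢₀⟩ := hne
    refine ⟨?_, ?_, ?_, ?_⟩
    · rintro S ⟨𝒢, h𝒢, hS⟩; exact (hc h𝒢).good S hS
    · rintro S ⟨𝒢, h𝒢, hS⟩; exact (hc h𝒢).unb S hS
    · exact ⟨𝒢₀, h𝒢₀, (hc h𝒢₀).memY⟩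
    · rintro S ⟨𝒢, h𝒢, hS⟩ T ⟨ℋ, hℋ, hT⟩
      rcases hchain.total h𝒢 hℋ with h | h
      · exact ⟨ℋ, hℋ, (hc hℋ).inter S (h hS) T hT⟩
      · exact ⟨𝒢, h𝒢, (hc h𝒢).inter S hS T (h hT)⟩
  obtain ⟨𝒢, -, hm⟩ := zorn_subset_nonempty {𝒢 : Set (Set (J × E)) | Base K Y 𝒢} H {Y} h0
  exact ⟨𝒢, hm.prop, fun ℋ hℋ h => hm.le_of_ge hℋ h⟩

variable {K : Set E} {Y : Set (J × E)} {𝒢 : Set (Set (J × E))}

lemma mem_of_max (hB : Base K Y 𝒢) (hmax : ∀ ℋ, Base K Y ℋ → 𝒢 ⊆ ℋ → ℋ ⊆ 𝒢)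
    {S : Set (J × E)} (hS : Good K Y S) (hc : ∀ T ∈ 𝒢, Unb (S ∩ T)) : S ∈ 𝒢 := by
  have h : Base K Y (𝒢 ∪ {R | ∃ T ∈ 𝒢, R = S ∩ T}) := by
    refine ⟨?_, ?_, Or.inl hB.memY, ?_⟩
    · rintro R (hR | ⟨T, hT, rfl⟩)
      · exact hB.good R hR
      · exact hS.inter (hB.good T hT)
    · rintro R (hR | ⟨T, hT, rfl⟩)
      · exact hB.unb R hR
      · exact hc T hT
    · rintro R (hR | ⟨T, hT, rfl⟩) R' (hR' | ⟨T', hT', rfl⟩)
      · exact Or.inl (hB.inter R hR R' hR')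
      · exact Or.inr ⟨R ∩ T', hB.inter R hR T' hT', by
          ext p; simp only [mem_inter_iff]; tauto⟩
      · exact Or.inr ⟨T ∩ R', hB.inter T hT R' hR', by
          ext p; simp only [mem_inter_iff]; tauto⟩
      · exact Or.inr ⟨T ∩ T', hB.inter T hT T' hT', by
          ext p; simp only [mem_inter_iff]; tauto⟩
  refine hmax _ h subset_union_left (Or.inr ⟨Y, hB.memY, ?_⟩)
  exact (inter_eq_left.2 hS.sub).symm

lemma biInter_mem (hB : Base K Y 𝒢) (S : ℕ → Set (J × E)) (hS : ∀ n, S n ∈ 𝒢) (N : ℕ) :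
    (⋂ n ∈ Finset.range (N + 1), S n) ∈ 𝒢 := by
  induction N with
  | zero => simpa using hS 0
  | succ N ih =>
    rw [Finset.range_add_one, Finset.set_biInter_insert]
    exact hB.inter _ (hS _) _ ih

lemma iInter_mem (hJ : ∀ a : ℕ → J, StrictMono a → ∃ l, IsLUB (range a) l)
    (hK : IsCompact K) (hB : Base K Y 𝒢) (hmax : ∀ ℋ, Base K Y ℋ → 𝒢 ⊆ ℋ → ℋ ⊆ 𝒢)
    (S : ℕ → Set (J × E)) (hS : ∀ n, S n ∈ 𝒢) : (⋂ n, S n) ∈ 𝒢 := by
  have hsub : ∀ α : J, {x | (α, x) ∈ ⋂ n, S n} ⊆ K := fun α x hx =>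
    (hB.good _ (hS 0)).mem _ (mem_iInter.1 hx 0)
  refine mem_of_max hB hmax ⟨isClosed_iInter fun n => (hB.good _ (hS n)).closed,
    (iInter_subset S 0).trans (hB.good _ (hS 0)).sub, fun α => ⟨hsub α, ?_⟩⟩ ?_
  · intro x hx y hy z hz hzo
    refine mem_iInter.2 fun n => ?_
    exact ((hB.good _ (hS n)).ext α).left_mem_of_mem_openSegment hx hy (mem_iInter.1 hz n) hzo
  · intro T hT
    have h := unb_iInter hJ hK (fun N => (⋂ n ∈ Finset.range (N + 1), S n) ∩ T) ?_ ?_ ?_ ?_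
    · intro β
      obtain ⟨α, hα, x, hx⟩ := h β
      refine ⟨α, hα, x, ?_, ?_⟩
      · refine mem_iInter.2 fun n => ?_
        have := (mem_iInter.1 hx n).1
        simp only [Finset.mem_range, mem_iInter] at this
        exact this n (by omega)
      · exact (mem_iInter.1 hx 0).2
    · intro M N hMN
      apply inter_subset_inter_left
      refine biInter_subset_biInter_left ?_
      intro n hn
      simp only [Finset.mem_coe, Finset.mem_range] at hn ⊢
      omega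
    · intro N
      exact ((hB.good _ (biInter_mem hB S hS N)).inter (hB.good T hT)).closed
    · intro N p hp
      exact (hB.good T hT).mem p hp.2
    · intro N
      exact hB.unb _ (hB.inter _ (biInter_mem hB S hS N) T hT)

lemma tail_mem [NoMaxOrder J] (hB : Base K Y 𝒢)
    (hmax : ∀ ℋ, Base K Y ℋ → 𝒢 ⊆ ℋ → ℋ ⊆ 𝒢) (β : J) :
    Y ∩ {p | β ≤ p.1} ∈ 𝒢 := by
  have hY := hB.good _ hB.memY
  refine mem_of_max hB hmax ⟨hY.closed.inter ?_, inter_subset_left, fun α => ⟨?_, ?_⟩⟩ ?_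
  · exact isClosed_Ici.preimage continuous_fst
  · intro x hx; exact (hY.ext α).subset hx.1
  · intro x hx y hy z hz hzo
    exact ⟨(hY.ext α).left_mem_of_mem_openSegment hx hy hz.1 hzo, hz.2⟩
  · intro T hT γ
    obtain ⟨α, hα, x, hx⟩ := hB.unb T hT (max β γ)
    exact ⟨α, lt_of_le_of_lt (le_max_right _ _) hα, x,
      ⟨(hB.good T hT).sub hx, (le_max_left _ _).trans hα.le⟩, hx⟩

/-- Every continuous linear functional is decided by the maximal filter. -/
lemma decides [NoMaxOrder J] (hJ : ∀ a : ℕ → J, StrictMono a → ∃ l, IsLUB (range a) l)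
    (hK : IsCompact K) (hB : Base K Y 𝒢) (hmax : ∀ ℋ, Base K Y ℋ → 𝒢 ⊆ ℋ → ℋ ⊆ 𝒢)
    (φ : E →L[ℝ] ℝ) : ∃ s : ℝ, ∃ S ∈ 𝒢, ∀ p ∈ S, φ p.2 = s := by
  obtain ⟨M, hM⟩ : ∃ M : ℝ, ∀ x ∈ K, |φ x| ≤ M := by
    obtain ⟨M, hM⟩ := (hK.image φ.continuous).isBounded.exists_norm_le
    exact ⟨M, fun x hx => hM _ ⟨x, hx, rfl⟩⟩
  -- the set of t such that some S in 𝒢 has φ ≤ t
  let A : Set ℝ := {t | ∃ S ∈ 𝒢, ∀ p ∈ S, φ p.2 ≤ t}
  have hAne : A.Nonempty := ⟨M, Y, hB.memY, fun p hp =>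
    (le_abs_self _).trans (hM _ ((hB.good _ hB.memY).mem p hp))⟩
  obtain ⟨β₀⟩ := (inferInstance : Nonempty J)
  have hAb : BddBelow A := by
    refine ⟨-M, ?_⟩
    rintro t ⟨S, hS, hSt⟩
    obtain ⟨α, -, x, hx⟩ := hB.unb S hS β₀
    have := hM x ((hB.good S hS).mem _ hx)
    linarith [hSt _ hx, neg_abs_le (φ x)]
  set s := sInf A with hs
  have hex : ∀ n : ℕ, ∃ S ∈ 𝒢, ∀ p ∈ S, φ p.2 ≤ s + 1 / ((n : ℝ) + 1) := by
    intro n
    have : s < s + 1 / ((n : ℝ) + 1) := by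
      have : (0 : ℝ) < 1 / ((n : ℝ) + 1) := by positivity
      linarith
    obtain ⟨t, ⟨S, hS, hSt⟩, ht⟩ := exists_lt_of_csInf_lt hAne this
    exact ⟨S, hS, fun p hp => (hSt p hp).trans ht.le⟩
  choose Sn hSn hSnle using hex
  let S₀ := ⋂ n, Sn n
  have hS₀ : S₀ ∈ 𝒢 := iInter_mem hJ hK hB hmax Sn hSn
  have hle : ∀ p ∈ S₀, φ p.2 ≤ s := by
    intro p hp
    refine le_of_forall_pos_le_add fun ε hε => ?_
    obtain ⟨n, hn⟩ := exists_nat_one_div_lt hε
    exact (hSnle n p (mem_iInter.1 hp n)).trans (by linarith)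
  have hS₀g := hB.good _ hS₀
  refine ⟨s, S₀ ∩ {p | s ≤ φ p.2}, ?_, fun p hp => le_antisymm (hle p hp.1) hp.2⟩
  refine mem_of_max hB hmax ⟨hS₀g.closed.inter ?_, inter_subset_left.trans hS₀g.sub,
    fun α => ⟨fun x hx => (hS₀g.ext α).subset hx.1, ?_⟩⟩ ?_
  · exact isClosed_le continuous_const (φ.continuous.comp continuous_snd)
  · intro x hx y hy z hz hzo
    have hx' := (hS₀g.ext α).left_mem_of_mem_openSegment hx hy hz.1 hzo
    have hy' := (hS₀g.ext α).left_mem_of_mem_openSegment hy hx hz.1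
      (by rwa [openSegment_symm])
    refine ⟨hx', ?_⟩
    obtain ⟨a, b, ha, hb, hab, rfl⟩ := hzo
    have h1 := hle _ hx'
    have h2 := hle _ hy'
    have h3 : s ≤ φ (a • x + b • y) := hz.2
    simp only [map_add, map_smul, smul_eq_mul] at h3
    simp only at h1 h2
    change s ≤ φ x
    by_contra hlt
    push Not at hlt
    have h4 : a * φ x < a * s := mul_lt_mul_of_pos_left hlt ha
    have h5 : b * φ y ≤ b * s := mul_le_mul_of_nonneg_left h2 hb.le
    have h6 : a * s + b * s = s := by rw [← add_mul, hab, one_mul]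
    linarith
  · intro T hT
    have h := unb_iInter hJ hK (fun n : ℕ => (S₀ ∩ T) ∩ {p | s - 1 / ((n : ℝ) + 1) ≤ φ p.2})
      ?_ ?_ ?_ ?_
    · intro β
      obtain ⟨α, hα, x, hx⟩ := h β
      have hx0 := mem_iInter.1 hx
      refine ⟨α, hα, x, ⟨(hx0 0).1.1, ?_⟩, (hx0 0).1.2⟩
      change s ≤ φ x
      refine le_of_forall_pos_le_add fun ε hε => ?_
      obtain ⟨n, hn⟩ := exists_nat_one_div_lt hε
      have : s - 1 / ((n : ℝ) + 1) ≤ φ x := (hx0 n).2
      linarith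
    · intro m n hmn
      apply inter_subset_inter_right
      intro p hp
      simp only [mem_ofPred_eq] at hp ⊢
      have : 1 / ((n : ℝ) + 1) ≤ 1 / ((m : ℝ) + 1) := by
        apply one_div_le_one_div_of_le (by positivity)
        have : (m : ℝ) ≤ n := by exact_mod_cast hmn
        linarith
      linarith
    · intro n
      exact ((hB.good _ (hB.inter _ hS₀ T hT)).closed).inter
        (isClosed_le continuous_const (φ.continuous.comp continuous_snd))
    · intro n p hp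
      exact (hB.good T hT).mem p hp.1.2
    · intro n β
      by_contra hcon
      push Not at hcon
      have hmem : (S₀ ∩ T) ∩ (Y ∩ {p | β ≤ p.1}) ∈ 𝒢 :=
        hB.inter _ (hB.inter _ hS₀ T hT) _ (tail_mem hB hmax β)
      -- shrink once more to get strict inequality
      obtain ⟨α', hα', x', hx'⟩ := hB.unb _ hmem β
      have hmem2 : (S₀ ∩ T) ∩ (Y ∩ {p | α' ≤ p.1}) ∈ 𝒢 :=
        hB.inter _ (hB.inter _ hS₀ T hT) _ (tail_mem hB hmax α')
      have hA : s - 1 / ((n : ℝ) + 1) ∈ A := by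
        refine ⟨_, hmem2, ?_⟩
        intro p hp
        have h1 : β < p.1 := lt_of_lt_of_le hα' hp.2.2
        have h2 := hcon p.1 h1 p.2
        by_contra h3
        push Not at h3
        exact h2 ⟨hp.1, h3.le⟩
      have h5 := csInf_le hAb hA
      have : (0 : ℝ) < 1 / ((n : ℝ) + 1) := by positivity
      rw [← hs] at h5
      linarith

/-- The abstract theorem: a point all of whose countable data are shared by extreme points. -/
theorem pseudoExtreme [NoMaxOrder J]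
    (hJ : ∀ a : ℕ → J, StrictMono a → ∃ l, IsLUB (range a) l)
    (hK : IsCompact K) (hYc : IsClosed Y) (hYe : ∀ α : J, IsExtreme ℝ K {x | (α, x) ∈ Y})
    (hYn : ∀ α : J, ∃ x, (α, x) ∈ Y) :
    ∃ x₀ ∈ K, (∀ β : J, x₀ ∈ closure {x | ∃ α, β ≤ α ∧ (α, x) ∈ Y}) ∧
      ∀ φ : ℕ → E →L[ℝ] ℝ, ∃ e ∈ K.extremePoints ℝ, ∀ k, φ k e = φ k x₀ := by
  have hYu : Unb Y := fun β => by
    obtain ⟨α, hα⟩ := exists_gt β
    exact ⟨α, hα, hYn α⟩
  obtain ⟨𝒢, hB, hmax⟩ := exists_maximal_base (K := K) (Y := Y)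
    ⟨hYc, Subset.rfl, hYe⟩ hYu
  obtain ⟨β₀⟩ := (inferInstance : Nonempty J)
  -- compactness
  have hne : (⋂ S : 𝒢, closure (Prod.snd '' (S : Set (J × E)))).Nonempty := by
    have : Nonempty 𝒢 := ⟨⟨Y, hB.memY⟩⟩
    refine IsCompact.nonempty_iInter_of_directed_nonempty_isCompact_isClosed _ ?_ ?_ ?_ ?_
    · intro S T
      refine ⟨⟨S ∩ T, hB.inter _ S.2 _ T.2⟩, ?_, ?_⟩
      · exact closure_mono (image_mono inter_subset_left)
      · exact closure_mono (image_mono inter_subset_right)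
    · intro S
      obtain ⟨α, -, x, hx⟩ := hB.unb _ S.2 β₀
      exact ⟨x, subset_closure ⟨(α, x), hx, rfl⟩⟩
    · intro S
      refine hK.of_isClosed_subset isClosed_closure ?_
      refine closure_minimal ?_ hK.isClosed
      rintro _ ⟨p, hp, rfl⟩
      exact (hB.good _ S.2).mem p hp
    · intro S; exact isClosed_closure
  obtain ⟨x₀, hx₀⟩ := hne
  have hx : ∀ S ∈ 𝒢, x₀ ∈ closure (Prod.snd '' S) := fun S hS =>
    mem_iInter.1 hx₀ ⟨S, hS⟩
  refine ⟨x₀, ?_, ?_, ?_⟩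
  · refine closure_minimal ?_ hK.isClosed (hx Y hB.memY)
    rintro _ ⟨p, hp, rfl⟩
    exact (hB.good _ hB.memY).mem p hp
  · intro β
    refine closure_mono ?_ (hx _ (tail_mem hB hmax β))
    rintro _ ⟨p, hp, rfl⟩
    exact ⟨p.1, hp.2, hp.1⟩
  · intro φ
    choose s S hS hSs using fun k => decides hJ hK hB hmax (φ k)
    have hmem := iInter_mem hJ hK hB hmax S hS
    obtain ⟨α, -, y, hy⟩ := hB.unb _ hmem β₀
    have hg := hB.good _ hmem
    have hcomp : IsCompact {x | (α, x) ∈ ⋂ n, S n} := by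
      refine hK.of_isClosed_subset ?_ (hg.ext α).subset
      exact hg.closed.preimage (by fun_prop : Continuous fun x : E => (α, x))
    obtain ⟨e, he⟩ := hcomp.extremePoints_nonempty ⟨y, hy⟩
    refine ⟨e, (hg.ext α).extremePoints_subset_extremePoints he, fun k => ?_⟩
    have h1 : φ k e = s k := hSs k (α, e) (mem_iInter.1 he.1 k)
    have h2 : φ k x₀ = s k := by
      have : closure (Prod.snd '' S k) ⊆ {x | φ k x = s k} := by
        refine closure_minimal ?_ (isClosed_eq (φ k).continuous continuous_const)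
        rintro _ ⟨p, hp, rfl⟩
        exact hSs k p hp
      exact this (hx _ (hS k))
    rw [h1, h2]

end

end R290.CD
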