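import Mathlib

/-!
Extension of a measure to a larger σ-algebra, giving full mass to a set of full outer measure.
-/

open Filter Topology MeasureTheory Set

namespace R290.CD

theorem exists_extension {X : Type*} [𝓑 : MeasurableSpace X] (μ : Measure X) [IsFiniteMeasure μ]
    (P : Set X) (hP : ∀ B : Set X, MeasurableSet B → Disjoint B P → μ B = 0) :
    ∃ σ : @Measure X (𝓑 ⊔ MeasurableSpace.generateFrom {P}), σ Pᶜ = 0 ∧
      ∀ B : Set X, MeasurableSet[𝓑] B → σ B = μ B := by
  let ρ : OuterMeasure X := OuterMeasure.restrict P μ.toOuterMeasure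
  have hρ : ∀ t, ρ t = μ (t ∩ P) := fun t => by simp [ρ]
  have hle : 𝓑 ⊔ MeasurableSpace.generateFrom {P} ≤ ρ.caratheodory := by
    refine sup_le ?_ (MeasurableSpace.generateFrom_le ?_)
    · intro B hB
      rw [OuterMeasure.isCaratheodory_iff]
      intro t
      rw [hρ, hρ, hρ, ← measure_inter_add_sdiff (t ∩ P) hB]
      congr 2
      · ext x; simp only [mem_inter_iff]; tauto
      · ext x; simp only [mem_inter_iff, Set.mem_sdiff]; tauto
    · intro Q hQ
      have hQ' : Q = P := hQ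
      subst hQ'
      rw [OuterMeasure.isCaratheodory_iff]
      intro t
      rw [hρ, hρ, hρ]
      have h1 : t ∩ Q ∩ Q = t ∩ Q := by rw [inter_assoc, inter_self]
      have h2 : t \ Q ∩ Q = ∅ := by ext x; simp
      rw [h1, h2, measure_empty, add_zero]
  have hPm : MeasurableSet[𝓑 ⊔ MeasurableSpace.generateFrom {P}] P := by
    have : MeasurableSpace.generateFrom {P} ≤ 𝓑 ⊔ MeasurableSpace.generateFrom {P} := le_sup_right
    exact this _ (MeasurableSpace.measurableSet_generateFrom rfl)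
  have hBm : ∀ B : Set X, MeasurableSet[𝓑] B →
      MeasurableSet[𝓑 ⊔ MeasurableSpace.generateFrom {P}] B := by
    intro B hB
    have : 𝓑 ≤ 𝓑 ⊔ MeasurableSpace.generateFrom {P} := le_sup_left
    exact this _ hB
  let σ : @Measure X (𝓑 ⊔ MeasurableSpace.generateFrom {P}) :=
    @OuterMeasure.toMeasure X (𝓑 ⊔ MeasurableSpace.generateFrom {P}) ρ hle
  have hσ : ∀ s, MeasurableSet[𝓑 ⊔ MeasurableSpace.generateFrom {P}] s → σ s = μ (s ∩ P) := by
    intro s hs
    rw [← hρ]
    exact @toMeasure_apply X (𝓑 ⊔ MeasurableSpace.generateFrom {P}) ρ hle s hs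
  refine ⟨σ, ?_, fun B hB => ?_⟩
  · rw [hσ _ (@MeasurableSet.compl X P (𝓑 ⊔ MeasurableSpace.generateFrom {P}) hPm)]
    have : Pᶜ ∩ P = ∅ := by ext x; simp
    rw [this, measure_empty]
  · rw [hσ _ (hBm B hB)]
    refine le_antisymm (measure_mono inter_subset_left) ?_
    set T := toMeasurable μ (B ∩ P)
    have hT : MeasurableSet T := measurableSet_toMeasurable _ _
    have hBT : μ (B \ T) = 0 := by
      refine hP _ (MeasurableSet.diff hB hT) ?_
      rw [Set.disjoint_left]
      rintro x ⟨hxB, hxT⟩ hxP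
      exact hxT (subset_toMeasurable μ _ ⟨hxB, hxP⟩)
    calc μ B = μ (B ∩ T) + μ (B \ T) := (measure_inter_add_sdiff B hT).symm
      _ ≤ μ T + 0 := by rw [hBT]; gcongr; exact inter_subset_right
      _ = μ (B ∩ P) := by rw [add_zero, measure_toMeasurable]

/-- Integrals over `B ∩ P` with respect to the extension. -/
theorem integral_extension {X : Type*} [𝓑 : MeasurableSpace X] (μ : Measure X)
    [IsFiniteMeasure μ] (P : Set X)
    (σ : @Measure X (𝓑 ⊔ MeasurableSpace.generateFrom {P})) (h0 : σ Pᶜ = 0)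
    (hσ : ∀ B : Set X, MeasurableSet[𝓑] B → σ B = μ B)
    (h : X → ℂ) (hh : Measurable[𝓑] h) (B : Set X) (hB : MeasurableSet[𝓑] B) :
    ∫ x in B ∩ P, h x ∂σ = ∫ x in B, h x ∂μ := by
  have hle : 𝓑 ≤ 𝓑 ⊔ MeasurableSpace.generateFrom {P} := le_sup_left
  have hBm : MeasurableSet[𝓑 ⊔ MeasurableSpace.generateFrom {P}] B := hle _ hB
  have htrim : σ.trim hle = μ := by
    refine @Measure.ext X 𝓑 _ _ fun s hs => ?_
    rw [trim_measurableSet_eq hle hs, hσ s hs]
  have h1 : (B ∩ P : Set X) =ᵐ[σ] B := by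
    have h2 : ∀ᵐ x ∂σ, x ∈ P := by
      rw [ae_iff]; exact h0
    filter_upwards [h2] with x hx
    apply propext
    exact ⟨fun h => h.1, fun h => ⟨h, hx⟩⟩
  have h3 : ∫ x in B ∩ P, h x ∂σ = ∫ x in B, h x ∂σ := by
    rw [Measure.restrict_congr_set h1]
  rw [h3, ← integral_indicator hB]
  rw [← @integral_indicator X ℂ (𝓑 ⊔ MeasurableSpace.generateFrom {P}) _ _ h B σ hBm]
  conv_rhs => rw [← htrim]
  exact integral_trim hle (hh.stronglyMeasurable.indicator hB)

end R290.CD
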