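import Pool.Agent.R290.CD.Point
import Pool.Agent.R290.CD.BdL
import Pool.Agent.R290.CD.Extend

/-!
The Choquet decomposition `½ δ_{m₀} + ½ σ₁` of `m = ½ (m₀ + m₁)`.
-/

open Filter Topology MeasureTheory Set
open scoped ComplexOrder

namespace R290.CD

set_option linter.unusedSectionVars false

section
variable {Γ : Type} [AddCommGroup Γ]

lemma continuous_re (f : Linf Γ) : Continuous fun ν : InvMeans Γ => (ν.1 f).re :=
  Complex.continuous_re.comp ((continuous_apply f).comp continuous_subtype_val)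

lemma continuous_im (f : Linf Γ) : Continuous fun ν : InvMeans Γ => (ν.1 f).im :=
  Complex.continuous_im.comp ((continuous_apply f).comp continuous_subtype_val)

lemma measurable_ev (f : Linf Γ) :
    Measurable[baireMS (InvMeans Γ)] fun ν : InvMeans Γ => ν.1 f := by
  have h1 : Measurable[baireMS (InvMeans Γ)] fun ν : InvMeans Γ => (ν.1 f).re :=
    measurable_baire ⟨_, continuous_re f⟩
  have h2 : Measurable[baireMS (InvMeans Γ)] fun ν : InvMeans Γ => (ν.1 f).im :=
    measurable_baire ⟨_, continuous_im f⟩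
  have h3 : (fun ν : InvMeans Γ => ν.1 f) =
      fun ν : InvMeans Γ => (((ν.1 f).re : ℝ) : ℂ) + (((ν.1 f).im : ℝ) : ℂ) * Complex.I := by
    funext ν
    exact (Complex.re_add_im _).symm
  rw [h3]
  exact (Complex.measurable_ofReal.comp h1).add
    ((Complex.measurable_ofReal.comp h2).mul_const Complex.I)

lemma integrable_ev (μ : @Measure (InvMeans Γ) (baireMS (InvMeans Γ)))
    (hμ : @IsFiniteMeasure _ (baireMS (InvMeans Γ)) μ) (f : Linf Γ) :
    Integrable (fun ν : InvMeans Γ => ν.1 f) μ := by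
  refine Integrable.of_bound (C := 2 * bd f) (measurable_ev f).aestronglyMeasurable ?_
  exact Eventually.of_forall fun ν => m_bound ν.2 f _ (bd_spec f)

/-- A Baire set containing a pseudo-extreme point meets the extreme boundary. -/
lemma meets {m0 : InvMeans Γ}
    (h : ∀ f : ℕ → Linf Γ, ∃ e ∈ (InvMeans Γ).extremePoints ℝ, ∀ k, e (f k) = m0.1 (f k))
    {B : Set (InvMeans Γ)} (hB : MeasurableSet[baireMS (InvMeans Γ)] B) (hm : m0 ∈ B) :
    ∃ e ∈ extPts Γ, e ∈ B := by
  obtain ⟨Φ, hΦ, B', hB', rfl⟩ := baire_factor hB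
  -- for each coordinate `n` and each `k`, finitely many functions control `Φ`
  have hnb : ∀ n k : ℕ, ∃ s : Finset (Linf Γ), ∀ ν : InvMeans Γ,
      (∀ f ∈ s, ν.1 f = m0.1 f) → |Φ ν n - Φ m0 n| < 1 / ((k : ℝ) + 1) := by
    intro n k
    have hc : Continuous fun ν : InvMeans Γ => Φ ν n := (continuous_apply n).comp hΦ
    have ho : IsOpen {ν : InvMeans Γ | |Φ ν n - Φ m0 n| < 1 / ((k : ℝ) + 1)} :=
      isOpen_lt (by fun_prop) continuous_const
    obtain ⟨U, hU, hUeq⟩ := isOpen_induced_iff.1 ho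
    have hm0U : (m0 : Linf Γ → ℂ) ∈ U := by
      have : m0 ∈ Subtype.val ⁻¹' U := by
        rw [hUeq]
        have : (0 : ℝ) < 1 / ((k : ℝ) + 1) := by positivity
        simpa using this
      exact this
    obtain ⟨s, u, hsu, hsub⟩ := isOpen_pi_iff.1 hU _ hm0U
    refine ⟨s, fun ν hν => ?_⟩
    have : ν ∈ Subtype.val ⁻¹' U := by
      apply hsub
      intro f hf
      rw [hν f hf]
      exact (hsu f hf).2
    rw [hUeq] at this
    exact this
  choose s hs using hnb
  -- the countable union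
  have hcount : (⋃ n, ⋃ k, (s n k : Set (Linf Γ))).Countable :=
    countable_iUnion fun n => countable_iUnion fun k => (s n k).countable_toSet
  obtain ⟨f, hf⟩ := (hcount.insert (0 : Linf Γ)).exists_eq_range ⟨0, mem_insert _ _⟩
  obtain ⟨e, he, hef⟩ := h f
  refine ⟨⟨e, he.1⟩, he, ?_⟩
  have hΦe : Φ ⟨e, he.1⟩ = Φ m0 := by
    funext n
    by_contra hne
    have hpos : 0 < |Φ ⟨e, he.1⟩ n - Φ m0 n| := abs_pos.2 (sub_ne_zero.2 hne)
    obtain ⟨k, hk⟩ := exists_nat_one_div_lt hpos
    have := hs n k ⟨e, he.1⟩ (fun g hg => by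
      have hg' : g ∈ range f := by
        rw [← hf]
        exact mem_insert_of_mem _ (mem_iUnion.2 ⟨n, mem_iUnion.2 ⟨k, hg⟩⟩)
      obtain ⟨j, rfl⟩ := hg'
      exact hef j)
    linarith
  change Φ ⟨e, he.1⟩ ∈ B'
  rw [hΦe]
  exact hm

end

end R290.CD
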