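import Mathlib

/-!
Definitions for MP_06f7ba_an: invariant means on a discrete abelian group, their Choquet
decompositions, the space `L²(m)` by Cauchy sequences, and the question Q1.
-/

open Filter Topology MeasureTheory
open scoped ComplexOrder

namespace R290.CD

/-- The Baire sets of a topological space: the σ-algebra generated by all continuous real
functions. -/
noncomputable def baireMS (X : Type*) [TopologicalSpace X] : MeasurableSpace X :=
  ⨆ g : C(X, ℝ), MeasurableSpace.comap g inferInstance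

/-- The bounded functions `Γ → ℂ`. -/
noncomputable def Linf (Γ : Type) : Subalgebra ℂ (Γ → ℂ) where
  carrier := {f | ∃ C : ℝ, ∀ x, ‖f x‖ ≤ C}
  mul_mem' := by
    rintro f g ⟨C, hC⟩ ⟨D, hD⟩
    refine ⟨C * D, fun x => ?_⟩
    rw [Pi.mul_apply, norm_mul]
    exact mul_le_mul (hC x) (hD x) (norm_nonneg _) ((norm_nonneg _).trans (hC x))
  add_mem' := by
    rintro f g ⟨C, hC⟩ ⟨D, hD⟩
    exact ⟨C + D, fun x => (norm_add_le _ _).trans (add_le_add (hC x) (hD x))⟩
  algebraMap_mem' := fun c => ⟨‖c‖, fun x => by simp⟩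

/-- The translation `(τ_γ f)(x) = f(x - γ)`. -/
noncomputable def trans {Γ : Type} [AddCommGroup Γ] (γ : Γ) (f : Linf Γ) : Linf Γ :=
  ⟨fun x => f.1 (x - γ), by
    obtain ⟨C, hC⟩ := f.2
    exact ⟨C, fun x => hC _⟩⟩

/-- The indicator function of a set, as a bounded function. -/
noncomputable def ind {Γ : Type} (A : Set Γ) : Linf Γ :=
  ⟨A.indicator 1, 1, fun x => by
    by_cases h : x ∈ A <;> simp [h]⟩

/-- The bounded function `|f|²`. -/
noncomputable def absSq {Γ : Type} (f : Linf Γ) : Linf Γ :=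
  ⟨fun x => ((‖f.1 x‖ ^ 2 : ℝ) : ℂ), by
    obtain ⟨C, hC⟩ := f.2
    refine ⟨C ^ 2, fun x => ?_⟩
    rw [Complex.norm_real, Real.norm_eq_abs, abs_of_nonneg (by positivity)]
    exact pow_le_pow_left₀ (norm_nonneg _) (hC x) 2⟩

/-- The set of invariant means on `ℓ^∞(Γ)`, as a subset of the space of all functions
`ℓ^∞(Γ) → ℂ` with the topology of pointwise convergence (the weak-* topology). -/
def InvMeans (Γ : Type) [AddCommGroup Γ] : Set (Linf Γ → ℂ) :=
  {m | (∀ f g, m (f + g) = m f + m g) ∧ (∀ (c : ℂ) (f : Linf Γ), m (c • f) = c * m f) ∧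
    (∀ f : Linf Γ, (∀ x, 0 ≤ f.1 x) → 0 ≤ m f) ∧ m 1 = 1 ∧
    ∀ (γ : Γ) (f : Linf Γ), m (trans γ f) = m f}

variable {Γ : Type} [AddCommGroup Γ]

/-- The set of extreme points, as a subset of the space of invariant means. -/
def extPts (Γ : Type) [AddCommGroup Γ] : Set (InvMeans Γ) :=
  {ν | (ν : Linf Γ → ℂ) ∈ (InvMeans Γ).extremePoints ℝ}

/-- The σ-algebra of subsets of the space of invariant means generated by the set of extreme
points and the Baire sets. -/
noncomputable def choquetMS (Γ : Type) [AddCommGroup Γ] : MeasurableSpace (InvMeans Γ) :=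
  baireMS (InvMeans Γ) ⊔ MeasurableSpace.generateFrom {extPts Γ}

/-- `σ` is a Choquet decomposition of the invariant mean `m`. -/
structure IsChoquetDecomposition (m : InvMeans Γ)
    (σ : @Measure (InvMeans Γ) (choquetMS Γ)) : Prop where
  total : σ Set.univ = 1
  ext : σ (extPts Γ) = 1
  meas : ∀ f : Linf Γ, Measurable[choquetMS Γ] fun ν : InvMeans Γ => ν.1 f
  bary : ∀ f : Linf Γ, m.1 f = ∫ ν, ν.1 f ∂σ

/-- The semimetric `d(f,g) = m(|f-g|²)^{1/2}`. -/
noncomputable def dist2 (m : InvMeans Γ) (f g : Linf Γ) : ℝ :=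
  Real.sqrt (m.1 (absSq (f - g))).re

/-- `d`-Cauchy sequences; they represent the elements of `L²(m)`. -/
def Cauchy2 (m : InvMeans Γ) (u : ℕ → Linf Γ) : Prop :=
  ∀ ε : ℝ, 0 < ε → ∃ N : ℕ, ∀ i j, N ≤ i → N ≤ j → dist2 m (u i) (u j) < ε

/-- Two sequences represent the same element of `L²(m)`. -/
def Same2 (m : InvMeans Γ) (u v : ℕ → Linf Γ) : Prop :=
  Tendsto (fun n => dist2 m (u n) (v n)) atTop (𝓝 0)

/-- The element of `L²(m)` represented by `u` is invariant under all translations. -/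
def Invariant2 (m : InvMeans Γ) (u : ℕ → Linf Γ) : Prop :=
  ∀ γ : Γ, Same2 m (fun n => trans γ (u n)) u

/-- The element of `L²(m)` represented by `u` is an indicator element: a limit of indicator
functions of sets `C n ⊆ Γ`. -/
def Indicator2 (m : InvMeans Γ) (u : ℕ → Linf Γ) : Prop :=
  ∃ C : ℕ → Set Γ, Same2 m u (fun n => ind (C n))

/-- The statement Q1 of MP_06f7ba_an. -/
def Q1 : Prop :=
  ∀ (Γ : Type) [AddCommGroup Γ] (m : InvMeans Γ) (σ : @Measure (InvMeans Γ) (choquetMS Γ)),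
    IsChoquetDecomposition m σ →
    ∀ E : Set (InvMeans Γ), E ⊆ extPts Γ → MeasurableSet[choquetMS Γ] E →
    ∃ u : ℕ → Linf Γ, Cauchy2 m u ∧ Invariant2 m u ∧ Indicator2 m u ∧
      ∀ f : Linf Γ, Tendsto (fun n => m.1 (f * u n)) atTop (𝓝 (∫ ν in E, ν.1 f ∂σ))

end R290.CD
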