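import Pool.Agent.R290.CD.Group

/-!
For every `α < ω₁` there is an invariant mean on `G` for which `r` is an eigenfunction with
character `chi α`.
-/

open Filter Topology MeasureTheory
open scoped ComplexOrder

namespace R290.CD

set_option linter.unusedSectionVars false

/-- `r` as a bounded function. -/
noncomputable def rr : Linf G := ofR r ⟨1, fun x => by rcases r_sq x with h | h <;> simp [h]⟩

lemma dev_bdd (γ : G) (s : ℝ) : ∃ C : ℝ, ∀ x : G, |(|r (x - γ) - s * r x|)| ≤ C := by
  refine ⟨1 + |s|, fun x => ?_⟩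
  rw [abs_abs]
  refine (abs_sub _ _).trans ?_
  rw [abs_mul]
  have h1 : |r (x - γ)| = 1 := by rcases r_sq (x - γ) with h | h <;> simp [h]
  have h2 : |r x| = 1 := by rcases r_sq x with h | h <;> simp [h]
  rw [h1, h2, mul_one]

/-- The function `x ↦ |r (x - γ) - s r x|`. -/
noncomputable def dev (γ : G) (s : ℝ) : Linf G :=
  ofR (fun x => |r (x - γ) - s * r x|) (dev_bdd γ s)

/-- The finite subgroup of elements supported in `F`. -/
noncomputable def HF (F : Finset L) : AddSubgroup G where
  carrier := {x | x.support ⊆ F}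
  zero_mem' := by simp
  add_mem' := by
    classical
    intro a b ha hb
    exact Finsupp.support_add.trans (Finset.union_subset ha hb)
  neg_mem' := by
    intro a ha
    simpa using ha

lemma mem_HF {F : Finset L} {x : G} : x ∈ HF F ↔ x.support ⊆ F := Iff.rfl

instance (F : Finset L) : Finite (HF F) := by
  refine Finite.of_injective (β := F → ZMod 2) (fun x p => x.1 p) ?_
  intro x y h
  apply Subtype.ext
  ext p
  by_cases hp : p ∈ F
  · exact congrFun h ⟨p, hp⟩
  · rw [Finsupp.notMem_support_iff.1 fun h' => hp (x.2 h'),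
      Finsupp.notMem_support_iff.1 fun h' => hp (y.2 h')]

noncomputable instance (F : Finset L) : Fintype (HF F) := Fintype.ofFinite _

/-- The average over a coset of `HF F`. -/
noncomputable def avg (F : Finset L) (t : G) (f : Linf G) : ℂ :=
  (Fintype.card (HF F) : ℂ)⁻¹ * ∑ h : HF F, f.1 (t + h)

lemma card_ne (F : Finset L) : (Fintype.card (HF F) : ℂ) ≠ 0 := by
  have : Fintype.card (HF F) ≠ 0 := Fintype.card_ne_zero
  exact_mod_cast this

lemma avg_norm (F : Finset L) (t : G) (f : Linf G) : ‖avg F t f‖ ≤ bd f := by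
  unfold avg
  rw [norm_mul, norm_inv]
  have h1 : ‖∑ h : HF F, f.1 (t + h)‖ ≤ Fintype.card (HF F) * bd f := by
    refine (norm_sum_le _ _).trans ?_
    refine (Finset.sum_le_sum fun h _ => bd_spec f _).trans ?_
    simp
  have h2 : ‖(Fintype.card (HF F) : ℂ)‖ = Fintype.card (HF F) := by simp
  rw [h2]
  have h3 : (0 : ℝ) < Fintype.card (HF F) := by exact_mod_cast Fintype.card_pos
  rw [inv_mul_le_iff₀ h3]
  exact h1

lemma avg_trans {F : Finset L} (t : G) (f : Linf G) {γ : G} (hγ : γ ∈ HF F) :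
    avg F t (trans γ f) = avg F t f := by
  unfold avg
  congr 1
  refine (Equiv.sum_comp (Equiv.subRight (⟨γ, hγ⟩ : HF F)) fun h : HF F => f.1 (t + h)).symm.trans ?_ |>.symm
  refine Finset.sum_congr rfl fun h _ => ?_
  change f.1 (t + ((h : G) - γ)) = f.1 (t + h - γ)
  rw [add_sub_assoc]

theorem exists_mean (α : J) : ∃ m ∈ InvMeans G, ∀ γ : G, m (dev γ (chi α γ)) = 0 := by
  classical
  choose t ht using exists_block α
  let 𝒰 : Ultrafilter (Finset L) := Ultrafilter.of atTop
  have h𝒰 : (𝒰 : Filter (Finset L)) ≤ atTop := Ultrafilter.of_le _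
  let a : Finset L → (Linf G → ℂ) := fun F f => avg F (t F) f
  have hcomp : IsCompact (Set.univ.pi fun f : Linf G => Metric.closedBall (0 : ℂ) (bd f)) :=
    isCompact_univ_pi fun f => isCompact_closedBall _ _
  obtain ⟨m, -, hm⟩ := isCompact_iff_ultrafilter_le_nhds.1 hcomp (𝒰.map a) (by
    rw [le_principal_iff]
    refine Filter.mem_map.2 (univ_mem' fun F f _ => ?_)
    rw [mem_closedBall_zero_iff]
    exact avg_norm _ _ _)
  have hlim : ∀ f, Tendsto (fun F => avg F (t F) f) 𝒰 (𝓝 (m f)) := by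
    intro f
    have : Tendsto a 𝒰 (𝓝 m) := hm
    exact (tendsto_pi_nhds.1 this) f
  have hev : ∀ γ : G, ∀ᶠ F in (𝒰 : Filter (Finset L)), γ ∈ HF F := by
    intro γ
    apply h𝒰
    filter_upwards [eventually_ge_atTop γ.support] with F hF
    exact hF
  refine ⟨m, ⟨?_, ?_, ?_, ?_, ?_⟩, ?_⟩
  · intro f g
    refine tendsto_nhds_unique (hlim (f + g)) (((hlim f).add (hlim g)).congr fun F => ?_)
    simp only [avg, val_add, Finset.sum_add_distrib, mul_add]
  · intro c f
    refine tendsto_nhds_unique (hlim (c • f)) (((hlim f).const_mul c).congr fun F => ?_)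
    simp only [avg, val_smul, ← Finset.mul_sum]
    ring
  · intro f hf
    refine ge_of_tendsto' (hlim f) fun F => ?_
    unfold avg
    refine mul_nonneg ?_ (Finset.sum_nonneg fun h _ => hf _)
    rw [← Complex.ofReal_natCast, ← Complex.ofReal_inv]
    exact_mod_cast inv_nonneg.2 (Nat.cast_nonneg (α := ℝ) _)
  · refine tendsto_nhds_unique (hlim 1) ((tendsto_const_nhds (x := (1 : ℂ))).congr fun F => ?_)
    simp only [avg, val_one, Finset.sum_const, Finset.card_univ, nsmul_eq_mul, mul_one]
    rw [inv_mul_cancel₀ (card_ne F)]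
  · intro γ f
    refine tendsto_nhds_unique (hlim (trans γ f)) ((hlim f).congr' ?_)
    filter_upwards [hev γ] with F hF
    rw [avg_trans _ _ hF]
  · intro γ
    refine tendsto_nhds_unique (hlim _) ((tendsto_const_nhds (x := (0 : ℂ))).congr' ?_)
    filter_upwards [hev γ] with F hF
    symm
    unfold avg
    rw [Finset.sum_eq_zero, mul_zero]
    intro h _
    have h1 : r (t F + h) = chi α (t F + h) := ht F h h.2
    have h2 : t F + (h : G) - γ = t F + ((h : G) - γ) := add_sub_assoc _ _ _
    have h3 : r (t F + h - γ) = chi α (t F + h) * chi α γ := by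
      rw [h2, ht F _ ((HF F).sub_mem h.2 hF), ← h2, sub_eq, chi_add]
    unfold dev
    rw [ofR_apply, h3, h1]
    simp [mul_comm]

/-- The total space of pairs. -/
def YY : Set (J × (Linf G → ℂ)) :=
  {p | p.2 ∈ InvMeans G ∧ ∀ γ : G, p.2 (dev γ (chi p.1 γ)) = 0}

lemma isClosed_YY : IsClosed YY := by
  have h1 : IsClosed {p : J × (Linf G → ℂ) | p.2 ∈ InvMeans G} :=
    isClosed_InvMeans.preimage continuous_snd
  have h2 : ∀ γ : G, IsClosed {p : J × (Linf G → ℂ) | p.2 (dev γ (chi p.1 γ)) = 0} := by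
    intro γ
    have : {p : J × (Linf G → ℂ) | p.2 (dev γ (chi p.1 γ)) = 0} =
        ({p | chi p.1 γ = 1} ∩ {p | p.2 (dev γ 1) = 0}) ∪
        ({p | chi p.1 γ = -1} ∩ {p | p.2 (dev γ (-1)) = 0}) := by
      ext p
      simp only [Set.mem_ofPred_eq, Set.mem_union, Set.mem_inter_iff]
      rcases chi_sq p.1 γ with h | h
      · rw [h]; norm_num
      · rw [h]; norm_num
    rw [this]
    have hc : Continuous fun p : J × (Linf G → ℂ) => chi p.1 γ :=
      (chi_continuous γ).comp continuous_fst
    have he : ∀ f : Linf G, Continuous fun p : J × (Linf G → ℂ) => p.2 f := fun f =>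
      (continuous_apply f).comp continuous_snd
    exact ((isClosed_eq hc continuous_const).inter (isClosed_eq (he _) continuous_const)).union
      ((isClosed_eq hc continuous_const).inter (isClosed_eq (he _) continuous_const))
  have h3 : YY = {p : J × (Linf G → ℂ) | p.2 ∈ InvMeans G} ∩
      ⋂ γ : G, {p : J × (Linf G → ℂ) | p.2 (dev γ (chi p.1 γ)) = 0} := by
    ext p; simp [YY]
  rw [h3]
  exact h1.inter (isClosed_iInter h2)

lemma dev_nonneg (γ : G) (s : ℝ) (x : G) : 0 ≤ (dev γ s).1 x := by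
  unfold dev
  rw [ofR_apply]
  exact_mod_cast abs_nonneg _

lemma isExtreme_YY (α : J) : IsExtreme ℝ (InvMeans G) {m | (α, m) ∈ YY} := by
  refine ⟨fun m hm => hm.1, ?_⟩
  rintro x hx y hy z hz ⟨a, b, ha, hb, hab, rfl⟩
  refine ⟨hx, fun γ => ?_⟩
  have h := hz.2 γ
  simp only [Pi.add_apply, Pi.smul_apply, Complex.real_smul] at h
  have h1 := m_pos hx _ (dev_nonneg γ (chi α γ))
  have h2 := m_pos hy _ (dev_nonneg γ (chi α γ))
  have ha' : (0 : ℂ) < (a : ℂ) := by exact_mod_cast ha
  have hb' : (0 : ℂ) < (b : ℂ) := by exact_mod_cast hb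
  have h3 : (a : ℂ) * x (dev γ (chi α γ)) = 0 := by
    have h4 := mul_nonneg ha'.le h1
    have h5 := mul_nonneg hb'.le h2
    exact (add_eq_zero_iff_of_nonneg h4 h5).1 h |>.1
  rcases mul_eq_zero.1 h3 with h4 | h4
  · exact absurd h4 ha'.ne'
  · exact h4

lemma m_rr {α : J} {m : Linf G → ℂ} (hm : (α, m) ∈ YY) : m rr = 0 := by
  have hγ := hm.2 (Finsupp.single (toLex (0, α)) 1)
  rw [chi_single] at hγ
  set γ : G := Finsupp.single (toLex (0, α)) 1 with hγdef
  have h1 := m_norm_le hm.1 (trans γ rr + rr) (fun x => |r (x - γ) - (-1) * r x|)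
    (dev_bdd γ (-1)) (fun x => by
      simp only [rr, val_add, trans_val, ofR_apply]
      rw [← Complex.ofReal_add, Complex.norm_real, Real.norm_eq_abs]
      exact le_of_eq (by congr 1; ring))
  change ‖m (trans γ rr + rr)‖ ≤ 2 * (m (dev γ (-1))).re at h1
  have hm1 : m ∈ InvMeans G := hm.1
  rw [show m (dev γ (-1)) = 0 from hγ, m_add hm1, m_inv hm1] at h1
  simp only [Complex.zero_re, mul_zero, norm_le_zero_iff] at h1
  have h2 : (2 : ℂ) * m rr = 0 := by rw [two_mul]; exact h1
  rcases mul_eq_zero.1 h2 with h3 | h3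
  · norm_num at h3
  · exact h3

end R290.CD
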