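import Pool.Agent.R290.CD.Decomp

/-!
The negative answer to Q1 of MP_06f7ba_an.
-/

open Filter Topology MeasureTheory Set
open scoped ComplexOrder ENNReal

namespace R290.CD

set_option linter.unusedSectionVars false
set_option linter.style.haveILetI false

section
variable {Γ : Type} [AddCommGroup Γ]

lemma bdd_sq (h : Linf Γ) : ∃ C : ℝ, ∀ x, |(‖h.1 x‖ ^ 2 : ℝ)| ≤ C := by
  obtain ⟨C, hC⟩ := h.2
  refine ⟨C ^ 2, fun x => ?_⟩
  rw [abs_of_nonneg (by positivity)]
  exact pow_le_pow_left₀ (norm_nonneg _) (hC x) 2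

lemma absSq_eq (h : Linf Γ) : absSq h = ofR (fun x => ‖h.1 x‖ ^ 2) (bdd_sq h) := rfl

lemma q_nonneg {m : Linf Γ → ℂ} (hm : m ∈ InvMeans Γ) (h : Linf Γ) : 0 ≤ (m (absSq h)).re := by
  rw [absSq_eq]
  exact (m_nonneg hm _ _ fun x => by positivity).1

/-- A Cauchy-Schwarz inequality. -/
lemma cs {m : Linf Γ → ℂ} (hm : m ∈ InvMeans Γ) (f h : Linf Γ) {c : ℝ}
    (hc : ∀ x, ‖f.1 x‖ ≤ c) : ‖m (f * h)‖ ≤ 2 * c * Real.sqrt (m (absSq h)).re := by
  have hc0 : 0 ≤ c := (norm_nonneg _).trans (hc 0)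
  set D := (m (absSq h)).re with hD
  have hD0 : 0 ≤ D := q_nonneg hm h
  have key : ∀ t : ℝ, 0 < t → ‖m (f * h)‖ ≤ c * (t + D / t) := by
    intro t ht
    have hb : ∃ C : ℝ, ∀ x, |c * (t / 2 + ‖h.1 x‖ ^ 2 / (2 * t))| ≤ C := by
      obtain ⟨C, hC⟩ := bdd_sq h
      refine ⟨c * (t / 2 + C / (2 * t)), fun x => ?_⟩
      rw [abs_of_nonneg (by positivity)]
      have := hC x
      rw [abs_of_nonneg (by positivity)] at this
      gcongr
    have h1 := m_norm_le hm (f * h) (fun x => c * (t / 2 + ‖h.1 x‖ ^ 2 / (2 * t))) hb (fun x => by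
      rw [val_mul, norm_mul]
      refine mul_le_mul (hc x) ?_ (norm_nonneg _) hc0
      have h2 : 0 ≤ (t - ‖h.1 x‖) ^ 2 := sq_nonneg _
      have h3 : t / 2 + ‖h.1 x‖ ^ 2 / (2 * t) - ‖h.1 x‖ = (t - ‖h.1 x‖) ^ 2 / (2 * t) := by
        field_simp; ring
      have h4 : 0 ≤ (t - ‖h.1 x‖) ^ 2 / (2 * t) := by positivity
      linarith)
    have h2 : ofR (fun x => c * (t / 2 + ‖h.1 x‖ ^ 2 / (2 * t))) hb =
        ((c * t / 2 : ℝ) : ℂ) • 1 + ((c / (2 * t) : ℝ) : ℂ) • absSq h := by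
      apply ext'; intro x
      simp only [ofR_apply, val_add, val_smul, val_one, absSq_eq]
      rw [← Complex.ofReal_one, ← Complex.ofReal_mul, ← Complex.ofReal_mul,
        ← Complex.ofReal_add]
      congr 1
      field_simp
    rw [h2, m_add hm, m_smul hm, m_smul hm, m_one hm, mul_one, Complex.add_re,
      Complex.re_ofReal_mul, Complex.ofReal_re, ← hD] at h1
    refine h1.trans (le_of_eq ?_)
    field_simp
  rcases hD0.eq_or_lt with h0 | h0
  · rw [← h0, Real.sqrt_zero, mul_zero]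
    refine le_of_forall_pos_le_add fun ε hε => ?_
    have h1 := key (ε / (c + 1)) (by positivity)
    rw [← h0, zero_div, add_zero] at h1
    refine h1.trans ?_
    rw [zero_add, mul_div_assoc', div_le_iff₀ (by positivity)]
    nlinarith
  · have hs : 0 < Real.sqrt D := Real.sqrt_pos.2 h0
    have h1 := key (Real.sqrt D) hs
    have h2 : D / Real.sqrt D = Real.sqrt D := Real.div_sqrt
    rw [h2] at h1
    linarith

lemma sq_three (a b c : ℂ) : ‖a + b + c‖ ^ 2 ≤ 3 * (‖a‖ ^ 2 + ‖b‖ ^ 2 + ‖c‖ ^ 2) := by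
  have h : ‖a + b + c‖ ≤ ‖a‖ + ‖b‖ + ‖c‖ := norm_add₃_le
  have h2 : ‖a + b + c‖ ^ 2 ≤ (‖a‖ + ‖b‖ + ‖c‖) ^ 2 := pow_le_pow_left₀ (norm_nonneg _) h 2
  nlinarith [sq_nonneg (‖a‖ - ‖b‖), sq_nonneg (‖a‖ - ‖c‖), sq_nonneg (‖b‖ - ‖c‖)]

lemma q_three {m : Linf Γ → ℂ} (hm : m ∈ InvMeans Γ) (a b c d : Linf Γ) :
    (m (absSq (a - d))).re ≤
      3 * ((m (absSq (b - a))).re + (m (absSq (b - c))).re + (m (absSq (c - d))).re) := by
  have hb : ∃ C : ℝ, ∀ x,
      |3 * (‖(b - a).1 x‖ ^ 2 + ‖(b - c).1 x‖ ^ 2 + ‖(c - d).1 x‖ ^ 2)| ≤ C := by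
    obtain ⟨C1, h1⟩ := bdd_sq (b - a)
    obtain ⟨C2, h2⟩ := bdd_sq (b - c)
    obtain ⟨C3, h3⟩ := bdd_sq (c - d)
    refine ⟨3 * (C1 + C2 + C3), fun x => ?_⟩
    rw [abs_of_nonneg (by positivity)]
    have h1' := (le_abs_self _).trans (h1 x)
    have h2' := (le_abs_self _).trans (h2 x)
    have h3' := (le_abs_self _).trans (h3 x)
    linarith
  have h := m_mono hm (fun x => ‖(a - d).1 x‖ ^ 2)
    (fun x => 3 * (‖(b - a).1 x‖ ^ 2 + ‖(b - c).1 x‖ ^ 2 + ‖(c - d).1 x‖ ^ 2)) (bdd_sq _) hb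
    (fun x => by
      have h1 : (a - d).1 x = -(b - a).1 x + (b - c).1 x + (c - d).1 x := by
        simp only [val_sub]; ring
      have h2 := sq_three (-(b - a).1 x) ((b - c).1 x) ((c - d).1 x)
      rw [norm_neg] at h2
      rw [h1]
      exact h2)
  have h2 : ofR (fun x => 3 * (‖(b - a).1 x‖ ^ 2 + ‖(b - c).1 x‖ ^ 2 + ‖(c - d).1 x‖ ^ 2)) hb =
      (3 : ℂ) • (absSq (b - a) + absSq (b - c) + absSq (c - d)) := by
    apply ext'; intro x
    simp only [ofR_apply, val_add, val_smul, absSq_eq]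
    push_cast
    ring
  rw [h2, m_smul hm, m_add hm, m_add hm] at h
  change (m (absSq (a - d))).re ≤ _ at h
  refine h.trans (le_of_eq ?_)
  simp [Complex.mul_re]

lemma ind_mul_self (A : Set Γ) : ind A * ind A = ind A := by
  apply ext'; intro x
  rw [val_mul]
  by_cases h : x ∈ A <;> simp [ind, h]

lemma ind_norm (A : Set Γ) (x : Γ) : ‖(ind A).1 x‖ ≤ 1 := by
  by_cases h : x ∈ A <;> simp [ind, h]

end

theorem not_Q1 : ¬ Q1 := by
  intro hQ
  obtain ⟨m0, hm0, hdev, hr, hps⟩ := exists_m0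
  have hhalf := half_mem hm0 hdev hr
  set m1 := half m0 with hm1def
  obtain ⟨μ1, hμ1, hbar, hvan⟩ := bdl (E := Linf G → ℂ) (isCompact_InvMeans (Γ := G))
    ⟨m1, hhalf⟩
  letI 𝓑 : MeasurableSpace (InvMeans G) := baireMS (InvMeans G)
  have hfin1 : IsFiniteMeasure μ1 := ⟨by rw [hμ1]; exact ENNReal.one_lt_top⟩
  let M0 : InvMeans G := ⟨m0, hm0⟩
  let μ : Measure (InvMeans G) := (2 : ℝ≥0∞)⁻¹ • Measure.dirac M0 + (2 : ℝ≥0∞)⁻¹ • μ1
  have hfin : IsFiniteMeasure μ := by
    refine ⟨?_⟩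
    simp only [μ, Measure.coe_add, Measure.coe_smul, Pi.add_apply, Pi.smul_apply, hμ1,
      smul_eq_mul, mul_one, measure_univ]
    rw [ENNReal.inv_two_add_inv_two]
    exact ENNReal.one_lt_top
  have hμuniv : μ univ = 1 := by
    simp only [μ, Measure.coe_add, Measure.coe_smul, Pi.add_apply, Pi.smul_apply, hμ1,
      smul_eq_mul, mul_one, measure_univ]
    exact ENNReal.inv_two_add_inv_two
  have hmu0 : ∀ B : Set (InvMeans G), MeasurableSet B → Disjoint B (extPts G) → μ B = 0 := by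
    intro B hB hd
    have h1 : μ1 B = 0 := hvan B hB fun x hx he => Set.disjoint_left.1 hd hx he
    have h2 : M0 ∉ B := fun h => by
      obtain ⟨e, he, heB⟩ := meets (m0 := M0) hps hB h
      exact Set.disjoint_left.1 hd heB he
    simp only [μ, Measure.coe_add, Measure.coe_smul, Pi.add_apply, Pi.smul_apply, h1,
      smul_eq_mul, mul_zero, add_zero]
    rw [Measure.dirac_apply' _ hB, indicator_of_notMem h2, mul_zero]
  obtain ⟨σ, hσ0, hσ⟩ := exists_extension μ (extPts G) hmu0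
  -- integrals with respect to `μ1`
  have hint1 : ∀ f : Linf G, Integrable (fun ν : InvMeans G => ν.1 f) μ1 := fun f =>
    integrable_ev μ1 hfin1 f
  have hI1 : ∀ f : Linf G, ∫ ν : InvMeans G, ν.1 f ∂μ1 = m1 f := by
    intro f
    apply Complex.ext
    · have h1 := Complex.reCLM.integral_comp_comm (hint1 f)
      exact h1.symm.trans (hbar (evRe f))
    · have h1 := Complex.imCLM.integral_comp_comm (hint1 f)
      exact h1.symm.trans (hbar (evIm f))
  -- the Baire set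
  let B0 : Set (InvMeans G) := {ν | ν.1 rr = 0}
  have hB0 : MeasurableSet B0 := measurable_ev rr (measurableSet_singleton 0)
  have hM0B : M0 ∈ B0 := hr
  have hrprr : rp * rr = rp := by
    apply ext'; intro x
    rw [val_mul, rp_apply]
    simp only [rr, ofR_apply]
    rcases r_sq x with h | h <;> rw [h] <;> norm_num
  have hrp : m0 rp = 1 / 2 := by
    rw [rp, m_smul hm0, m_add hm0, m_one hm0, hr]; norm_num
  have hm1rr : m1 rr = 1 := by
    rw [hm1def]
    change 2 * m0 (rp * rr) = 1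
    rw [hrprr, hrp]; norm_num
  have hle1 : ∀ ν : InvMeans G, (ν.1 rr).re ≤ 1 := by
    intro ν
    have h1 := m_mono ν.2 r (fun _ => 1) ⟨1, fun x => by rcases r_sq x with h | h <;> simp [h]⟩
      ⟨|1|, fun _ => le_rfl⟩ (fun x => by rcases r_sq x with h | h <;> rw [h]; norm_num)
    rw [m_const ν.2] at h1
    exact h1
  have hμ1B : μ1 B0 = 0 := by
    have hre : Integrable (fun ν : InvMeans G => (ν.1 rr).re) μ1 := (hint1 rr).re
    have h1 : ∫ ν : InvMeans G, (1 - (ν.1 rr).re) ∂μ1 = 0 := by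
      rw [integral_sub (integrable_const 1) hre]
      have h2 : ∫ ν : InvMeans G, (ν.1 rr).re ∂μ1 = (m1 rr).re := hbar (evRe rr)
      rw [integral_const, measureReal_def, hμ1]
      rw [h2, hm1rr]
      simp
    have h2 := (integral_eq_zero_iff_of_nonneg (fun ν => sub_nonneg.2 (hle1 ν))
      ((integrable_const 1).sub hre)).1 h1
    have h3 : ∀ᵐ ν ∂μ1, ν ∉ B0 := by
      filter_upwards [h2] with ν hν hB
      have h4 : ν.1 rr = 0 := hB
      simp only [Pi.zero_apply, h4, Complex.zero_re, sub_zero] at hν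
      exact one_ne_zero hν
    rw [ae_iff] at h3
    simpa using h3
  have hsm : ∀ f : Linf G, StronglyMeasurable fun ν : InvMeans G => ν.1 f := fun f =>
    (measurable_ev f).stronglyMeasurable
  have hf0 : IsFiniteMeasure ((2 : ℝ≥0∞)⁻¹ • Measure.dirac M0) :=
    Measure.smul_finite _ (by simp)
  have hf1 : IsFiniteMeasure ((2 : ℝ≥0∞)⁻¹ • μ1) := Measure.smul_finite _ (by simp)
  have hIB : ∀ f : Linf G, ∫ ν in B0, ν.1 f ∂μ = (1 / 2 : ℂ) * m0 f := by
    intro f
    have h1 : Integrable (fun ν : InvMeans G => ν.1 f)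
        (((2 : ℝ≥0∞)⁻¹ • Measure.dirac M0).restrict B0) :=
      (integrable_ev _ (by infer_instance) f)
    have h2 : Integrable (fun ν : InvMeans G => ν.1 f) (((2 : ℝ≥0∞)⁻¹ • μ1).restrict B0) :=
      (integrable_ev _ (by infer_instance) f)
    simp only [μ]
    rw [Measure.restrict_add, integral_add_measure h1 h2, Measure.restrict_smul,
      Measure.restrict_smul, integral_smul_measure, integral_smul_measure,
      setIntegral_dirac' (hsm f) _ hB0, if_pos hM0B, setIntegral_measure_zero _ hμ1B]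
    simp [M0]
  have hIμ : ∀ f : Linf G, ∫ ν : InvMeans G, ν.1 f ∂μ =
      (1 / 2 : ℂ) * m0 f + (1 / 2 : ℂ) * m1 f := by
    intro f
    have h1 : Integrable (fun ν : InvMeans G => ν.1 f) ((2 : ℝ≥0∞)⁻¹ • Measure.dirac M0) :=
      (integrable_ev _ (by infer_instance) f)
    have h2 : Integrable (fun ν : InvMeans G => ν.1 f) ((2 : ℝ≥0∞)⁻¹ • μ1) :=
      (integrable_ev _ (by infer_instance) f)
    simp only [μ]
    rw [integral_add_measure h1 h2, integral_smul_measure, integral_smul_measure,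
      integral_dirac' _ _ (hsm f), hI1 f]
    simp [M0]
  -- the mean
  let Mv : Linf G → ℂ := (1 / 2 : ℝ) • m0 + (1 / 2 : ℝ) • m1
  have hMv : Mv ∈ InvMeans G :=
    convex_InvMeans hm0 hhalf (by norm_num) (by norm_num) (by norm_num)
  have hMf : ∀ f, Mv f = (1 / 2 : ℂ) * m0 f + (1 / 2 : ℂ) * m1 f := by
    intro f; simp [Mv]
  let M : InvMeans G := ⟨Mv, hMv⟩
  have hae : ∀ᵐ x ∂σ, x ∈ extPts G := by
    rw [ae_iff]; exact hσ0
  have hdec : IsChoquetDecomposition M σ := by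
    have h1 : σ univ = 1 := by rw [hσ univ MeasurableSet.univ]; exact hμuniv
    refine ⟨h1, ?_, ?_, ?_⟩
    · refine le_antisymm ((measure_mono (subset_univ _)).trans h1.le) ?_
      calc (1 : ℝ≥0∞) = σ univ := h1.symm
        _ ≤ σ (extPts G ∪ (extPts G)ᶜ) := by rw [union_compl_self]
        _ ≤ σ (extPts G) + σ (extPts G)ᶜ := measure_union_le _ _
        _ = σ (extPts G) := by rw [hσ0, add_zero]
    · intro f
      exact (measurable_ev f).mono le_sup_left le_rfl
    · intro f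
      change Mv f = _
      rw [hMf, ← hIμ]
      have h2 := integral_extension μ (extPts G) σ hσ0 hσ (fun ν => ν.1 f) (measurable_ev f)
        univ MeasurableSet.univ
      rw [setIntegral_univ] at h2
      rw [← h2]
      have h3 : (univ ∩ extPts G : Set (InvMeans G)) =ᵐ[σ] univ := by
        filter_upwards [hae] with x hx
        apply propext
        exact ⟨fun _ => trivial, fun _ => ⟨trivial, hx⟩⟩
      rw [Measure.restrict_congr_set h3, Measure.restrict_univ]
      rfl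
  have hI : ∀ f : Linf G, ∫ ν in B0 ∩ extPts G, ν.1 f ∂σ = (1 / 2 : ℂ) * m0 f := by
    intro f
    rw [← hIB f]
    exact integral_extension μ (extPts G) σ hσ0 hσ (fun ν => ν.1 f) (measurable_ev f) B0 hB0
  have hEm : MeasurableSet[choquetMS G] (B0 ∩ extPts G) := by
    have h1 : MeasurableSet[choquetMS G] B0 := by
      have : baireMS (InvMeans G) ≤ choquetMS G := le_sup_left
      exact this _ hB0
    have h2 : MeasurableSet[choquetMS G] (extPts G) := by
      have : MeasurableSpace.generateFrom {extPts G} ≤ choquetMS G := le_sup_right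
      exact this _ (MeasurableSpace.measurableSet_generateFrom rfl)
    exact @MeasurableSet.inter _ (choquetMS G) _ _ h1 h2
  obtain ⟨u, hu1, -, ⟨C, hC⟩, hu4⟩ := hQ G M σ hdec (B0 ∩ extPts G) inter_subset_right hEm
  have hu5 : ∀ f : Linf G, Tendsto (fun n => Mv (f * u n)) atTop
      (𝓝 ((1 / 2 : ℂ) * m0 f)) := by
    intro f
    rw [← hI f]
    exact hu4 f
  let v : ℕ → Linf G := fun n => ind (C n)
  have hC' : Tendsto (fun n => dist2 M (u n) (v n)) atTop (𝓝 0) := hC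
  have hsq : ∀ f g : Linf G, (Mv (absSq (f - g))).re = dist2 M f g ^ 2 := by
    intro f g
    unfold dist2
    rw [Real.sq_sqrt (q_nonneg hMv _)]
  -- weak limits along `v`
  have hlim : ∀ f : Linf G, Tendsto (fun n => Mv (f * v n)) atTop (𝓝 ((1 / 2 : ℂ) * m0 f)) := by
    intro f
    have h1 : Tendsto (fun n => Mv (f * (u n - v n))) atTop (𝓝 0) := by
      rw [tendsto_zero_iff_norm_tendsto_zero]
      refine squeeze_zero (fun n => norm_nonneg _)
        (fun n => cs hMv f (u n - v n) (bd_spec f)) ?_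
      have h2 : Tendsto (fun n => 2 * bd f * dist2 M (u n) (v n)) atTop (𝓝 (2 * bd f * 0)) :=
        hC'.const_mul _
      rw [mul_zero] at h2
      exact h2
    have h3 : Tendsto (fun n => Mv (f * u n)) atTop (𝓝 ((1 / 2 : ℂ) * m0 f)) := hu5 f
    have h4 := h3.sub h1
    rw [sub_zero] at h4
    refine h4.congr fun n => ?_
    rw [mul_sub, m_sub hMv, sub_sub_cancel]
  -- `v` is Cauchy
  have hcau : ∃ N : ℕ, ∀ k n, N ≤ k → N ≤ n →
      Real.sqrt (Mv (absSq (v n - v k))).re ≤ 1 / 24 := by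
    obtain ⟨N1, hN1⟩ := hu1 (1 / 72) (by norm_num)
    obtain ⟨N2, hN2⟩ := (Metric.tendsto_atTop.1 hC') (1 / 72) (by norm_num)
    refine ⟨max N1 N2, fun k n hk hn => ?_⟩
    have hd0 : ∀ f g, 0 ≤ dist2 M f g := fun f g => Real.sqrt_nonneg _
    have h1 := hN1 n k (le_trans (le_max_left _ _) hn) (le_trans (le_max_left _ _) hk)
    have h2 := hN2 n (le_trans (le_max_right _ _) hn)
    have h3 := hN2 k (le_trans (le_max_right _ _) hk)
    rw [Real.dist_eq, sub_zero, abs_of_nonneg (hd0 _ _)] at h2 h3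
    have h4 := q_three hMv (v n) (u n) (u k) (v k)
    rw [hsq (u n) (v n), hsq (u n) (u k), hsq (u k) (v k)] at h4
    have e1 : dist2 M (u n) (v n) ^ 2 ≤ (1 / 72) ^ 2 := pow_le_pow_left₀ (hd0 _ _) h2.le 2
    have e2 : dist2 M (u n) (u k) ^ 2 ≤ (1 / 72) ^ 2 := pow_le_pow_left₀ (hd0 _ _) h1.le 2
    have e3 : dist2 M (u k) (v k) ^ 2 ≤ (1 / 72) ^ 2 := pow_le_pow_left₀ (hd0 _ _) h3.le 2
    rw [Real.sqrt_le_left (by norm_num)]
    refine h4.trans ?_
    norm_num at e1 e2 e3 ⊢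
    linarith
  obtain ⟨N, hN⟩ := hcau
  have hrel : ∀ g : Linf G, (1 / 2 : ℂ) * m0 (rp * g) = (1 / 3 : ℂ) * Mv (rp * g) := by
    intro g
    rw [hMf]
    have : m1 (rp * g) = 2 * m0 (rp * g) := by
      rw [hm1def]
      change 2 * m0 (rp * (rp * g)) = _
      rw [← mul_assoc, rp_sq]
    rw [this]; ring
  have hsmall : ∀ k, N ≤ k → ‖Mv (rp * v k)‖ ≤ 1 / 8 := by
    intro k hk
    have h1 : ∀ n, N ≤ n → ‖Mv (rp * v k * v n) - Mv (rp * v k)‖ ≤ 1 / 12 := by
      intro n hn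
      have h2 : Mv (rp * v k * v n) - Mv (rp * v k) = Mv ((rp * v k) * (v n - v k)) := by
        rw [mul_sub, m_sub hMv]
        have : rp * v k * v k = rp * v k := by rw [mul_assoc, ind_mul_self]
        rw [this]
      rw [h2]
      refine (cs hMv (rp * v k) (v n - v k) (c := 1) fun x => ?_).trans ?_
      · rw [val_mul, norm_mul]
        have h3 : ‖rp.1 x‖ ≤ 1 := by rcases rp_val x with h | h <;> rw [h] <;> simp
        exact mul_le_one₀ h3 (norm_nonneg _) (ind_norm _ x)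
      · have := hN k n hk hn
        linarith
    have h2 : ‖(1 / 2 : ℂ) * m0 (rp * v k) - Mv (rp * v k)‖ ≤ 1 / 12 := by
      refine le_of_tendsto ((hlim (rp * v k)).sub_const _).norm ?_
      filter_upwards [eventually_ge_atTop N] with n hn
      exact h1 n hn
    rw [hrel] at h2
    have h3 : (1 / 3 : ℂ) * Mv (rp * v k) - Mv (rp * v k) = (-(2 / 3) : ℂ) * Mv (rp * v k) := by
      ring
    rw [h3, norm_mul] at h2
    have h4 : ‖(-(2 / 3) : ℂ)‖ = 2 / 3 := by
      rw [norm_neg]; norm_num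
    rw [h4] at h2
    linarith
  have h5 := hlim rp
  rw [hrp] at h5
  have h6 : ‖(1 / 2 : ℂ) * (1 / 2)‖ ≤ 1 / 8 := by
    refine le_of_tendsto h5.norm ?_
    filter_upwards [eventually_ge_atTop N] with k hk
    exact hsmall k hk
  norm_num at h6

end R290.CD
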