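import Pool.Agent.R290.CD.Defs

/-!
Elementary properties of invariant means.
-/

open Filter Topology MeasureTheory
open scoped ComplexOrder

namespace R290.CD

set_option linter.unusedSectionVars false

/-- A bounded real function as an element of `ℓ^∞(Γ)`. -/
noncomputable def ofR {Γ : Type} (u : Γ → ℝ) (h : ∃ C : ℝ, ∀ x, |u x| ≤ C) : Linf Γ :=
  ⟨fun x => (u x : ℂ), by
    obtain ⟨C, hC⟩ := h
    exact ⟨C, fun x => by rw [Complex.norm_real]; exact hC x⟩⟩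

@[simp] lemma ofR_apply {Γ : Type} (u : Γ → ℝ) (h : ∃ C : ℝ, ∀ x, |u x| ≤ C) (x : Γ) :
    (ofR u h).1 x = (u x : ℂ) := rfl

variable {Γ : Type} [AddCommGroup Γ] {m : Linf Γ → ℂ}

lemma ext' {f g : Linf Γ} (h : ∀ x, f.1 x = g.1 x) : f = g := Subtype.ext (funext h)

@[simp] lemma val_add (f g : Linf Γ) (x : Γ) : (f + g).1 x = f.1 x + g.1 x := rfl
@[simp] lemma val_sub (f g : Linf Γ) (x : Γ) : (f - g).1 x = f.1 x - g.1 x := rfl
@[simp] lemma val_mul (f g : Linf Γ) (x : Γ) : (f * g).1 x = f.1 x * g.1 x := rfl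
@[simp] lemma val_smul (c : ℂ) (f : Linf Γ) (x : Γ) : (c • f).1 x = c * f.1 x := rfl
@[simp] lemma val_one (x : Γ) : (1 : Linf Γ).1 x = 1 := rfl
@[simp] lemma val_zero (x : Γ) : (0 : Linf Γ).1 x = 0 := rfl
@[simp] lemma val_neg (f : Linf Γ) (x : Γ) : (-f).1 x = -f.1 x := rfl
@[simp] lemma trans_val (γ : Γ) (f : Linf Γ) (x : Γ) : (trans γ f).1 x = f.1 (x - γ) := rfl

lemma m_add (hm : m ∈ InvMeans Γ) (f g : Linf Γ) : m (f + g) = m f + m g := hm.1 f g
lemma m_smul (hm : m ∈ InvMeans Γ) (c : ℂ) (f : Linf Γ) : m (c • f) = c * m f := hm.2.1 c f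
lemma m_pos (hm : m ∈ InvMeans Γ) (f : Linf Γ) (h : ∀ x, 0 ≤ f.1 x) : 0 ≤ m f := hm.2.2.1 f h
lemma m_one (hm : m ∈ InvMeans Γ) : m 1 = 1 := hm.2.2.2.1
lemma m_inv (hm : m ∈ InvMeans Γ) (γ : Γ) (f : Linf Γ) : m (trans γ f) = m f :=
  hm.2.2.2.2 γ f

lemma m_zero (hm : m ∈ InvMeans Γ) : m 0 = 0 := by
  have := m_smul hm 0 0
  simpa using this

lemma m_neg (hm : m ∈ InvMeans Γ) (f : Linf Γ) : m (-f) = -m f := by
  have := m_smul hm (-1) f
  simpa using this

lemma m_sub (hm : m ∈ InvMeans Γ) (f g : Linf Γ) : m (f - g) = m f - m g := by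
  rw [sub_eq_add_neg, m_add hm, m_neg hm, sub_eq_add_neg]

lemma m_nonneg (hm : m ∈ InvMeans Γ) (u : Γ → ℝ) (h : ∃ C : ℝ, ∀ x, |u x| ≤ C)
    (hu : ∀ x, 0 ≤ u x) : 0 ≤ (m (ofR u h)).re ∧ (m (ofR u h)).im = 0 := by
  have := m_pos hm (ofR u h) (fun x => by
    rw [ofR_apply]; exact_mod_cast hu x)
  rw [Complex.nonneg_iff] at this
  exact ⟨this.1, this.2.symm⟩

lemma m_im (hm : m ∈ InvMeans Γ) (u : Γ → ℝ) (h : ∃ C : ℝ, ∀ x, |u x| ≤ C) :
    (m (ofR u h)).im = 0 := by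
  obtain ⟨C, hC⟩ := id h
  have hC0 : 0 ≤ C := (abs_nonneg _).trans (hC 0)
  have h2 : ∃ D : ℝ, ∀ x, |u x + C| ≤ D :=
    ⟨C + C, fun x => (abs_add_le _ _).trans (add_le_add (hC x) (by rw [abs_of_nonneg hC0]))⟩
  have h1 := m_nonneg hm (fun x => u x + C) h2 (fun x => by linarith [neg_abs_le (u x), hC x])
  have h3 : ofR u h = ofR (fun x => u x + C) h2 - (C : ℂ) • 1 := by
    apply ext'; intro x; simp
  rw [h3, m_sub hm, m_smul hm, m_one hm, Complex.sub_im, h1.2]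
  simp

lemma m_mono (hm : m ∈ InvMeans Γ) (u v : Γ → ℝ) (h : ∃ C : ℝ, ∀ x, |u x| ≤ C)
    (k : ∃ C : ℝ, ∀ x, |v x| ≤ C) (huv : ∀ x, u x ≤ v x) :
    (m (ofR u h)).re ≤ (m (ofR v k)).re := by
  have hk : ∃ C : ℝ, ∀ x, |v x - u x| ≤ C := by
    obtain ⟨C, hC⟩ := h
    obtain ⟨D, hD⟩ := k
    exact ⟨D + C, fun x => (abs_sub _ _).trans (add_le_add (hD x) (hC x))⟩
  have h1 := m_nonneg hm (fun x => v x - u x) hk (fun x => by linarith [huv x])
  have h2 : ofR (fun x => v x - u x) hk = ofR v k - ofR u h := by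
    apply ext'; intro x; simp
  rw [h2, m_sub hm, Complex.sub_re] at h1
  linarith [h1.1]

lemma bdd_re (f : Linf Γ) : ∃ C : ℝ, ∀ x, |(f.1 x).re| ≤ C := by
  obtain ⟨C, hC⟩ := f.2
  exact ⟨C, fun x => (Complex.abs_re_le_norm _).trans (hC x)⟩

lemma bdd_im (f : Linf Γ) : ∃ C : ℝ, ∀ x, |(f.1 x).im| ≤ C := by
  obtain ⟨C, hC⟩ := f.2
  exact ⟨C, fun x => (Complex.abs_im_le_norm _).trans (hC x)⟩

lemma split (f : Linf Γ) : f = ofR _ (bdd_re f) + Complex.I • ofR _ (bdd_im f) := by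
  apply ext'; intro x
  simp only [val_add, val_smul, ofR_apply]
  rw [mul_comm]
  exact (Complex.re_add_im _).symm

lemma m_abs_real (hm : m ∈ InvMeans Γ) (u v : Γ → ℝ) (h : ∃ C : ℝ, ∀ x, |u x| ≤ C)
    (k : ∃ C : ℝ, ∀ x, |v x| ≤ C) (huv : ∀ x, |u x| ≤ v x) :
    ‖m (ofR u h)‖ ≤ (m (ofR v k)).re := by
  have h1 : m (ofR u h) = ((m (ofR u h)).re : ℂ) := by
    apply Complex.ext <;> simp [m_im hm u h]
  rw [h1, Complex.norm_real, Real.norm_eq_abs, abs_le]
  constructor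
  · have hn : ∃ C : ℝ, ∀ x, |-v x| ≤ C := by
      obtain ⟨C, hC⟩ := k
      exact ⟨C, fun x => by rw [abs_neg]; exact hC x⟩
    have h2 := m_mono hm (fun x => -v x) u hn h (fun x => by
      linarith [neg_abs_le (u x), huv x])
    have h3 : ofR (fun x => -v x) hn = -ofR v k := by
      apply ext'; intro x; simp
    rw [h3, m_neg hm, Complex.neg_re] at h2
    exact h2
  · exact m_mono hm _ _ _ _ fun x => (le_abs_self _).trans (huv x)

/-- `|m f| ≤ 2 m(u)` when `|f| ≤ u`. -/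
lemma m_norm_le (hm : m ∈ InvMeans Γ) (f : Linf Γ) (u : Γ → ℝ)
    (h : ∃ C : ℝ, ∀ x, |u x| ≤ C) (hu : ∀ x, ‖f.1 x‖ ≤ u x) :
    ‖m f‖ ≤ 2 * (m (ofR u h)).re := by
  have h1 := m_abs_real hm _ u (bdd_re f) h (fun x => (Complex.abs_re_le_norm _).trans (hu x))
  have h2 := m_abs_real hm _ u (bdd_im f) h (fun x => (Complex.abs_im_le_norm _).trans (hu x))
  rw [split f, m_add hm, m_smul hm]
  refine (norm_add_le _ _).trans ?_
  rw [norm_mul, Complex.norm_I, one_mul]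
  linarith

lemma m_const (hm : m ∈ InvMeans Γ) (c : ℝ) (h : ∃ C : ℝ, ∀ _ : Γ, |c| ≤ C) :
    m (ofR (fun _ => c) h) = c := by
  have : ofR (fun _ : Γ => c) h = (c : ℂ) • 1 := by
    apply ext'; intro x; simp
  rw [this, m_smul hm, m_one hm, mul_one]

lemma m_bound (hm : m ∈ InvMeans Γ) (f : Linf Γ) (C : ℝ) (hC : ∀ x, ‖f.1 x‖ ≤ C) :
    ‖m f‖ ≤ 2 * C := by
  have h := m_norm_le hm f (fun _ => C) ⟨|C|, fun _ => le_rfl⟩ hC
  rwa [m_const hm, Complex.ofReal_re] at h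

lemma convex_InvMeans : Convex ℝ (InvMeans Γ) := by
  intro m hm n hn a b ha hb hab
  refine ⟨?_, ?_, ?_, ?_, ?_⟩
  · intro f g
    simp only [Pi.add_apply, Pi.smul_apply, Complex.real_smul, m_add hm, m_add hn]
    ring
  · intro c f
    simp only [Pi.add_apply, Pi.smul_apply, Complex.real_smul, m_smul hm, m_smul hn]
    ring
  · intro f hf
    simp only [Pi.add_apply, Pi.smul_apply, Complex.real_smul]
    have h1 := m_pos hm f hf
    have h2 := m_pos hn f hf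
    have ha' : (0 : ℂ) ≤ (a : ℂ) := by exact_mod_cast ha
    have hb' : (0 : ℂ) ≤ (b : ℂ) := by exact_mod_cast hb
    exact add_nonneg (mul_nonneg ha' h1) (mul_nonneg hb' h2)
  · simp only [Pi.add_apply, Pi.smul_apply, Complex.real_smul, m_one hm, m_one hn, mul_one]
    exact_mod_cast hab
  · intro γ f
    simp only [Pi.add_apply, Pi.smul_apply, m_inv hm, m_inv hn]

/-- The common bound. -/
noncomputable def bd (f : Linf Γ) : ℝ := f.2.choose

lemma bd_spec (f : Linf Γ) (x : Γ) : ‖f.1 x‖ ≤ bd f := f.2.choose_spec x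

lemma isClosed_InvMeans : IsClosed (InvMeans Γ) := by
  have h1 : IsClosed {m : Linf Γ → ℂ | ∀ f g, m (f + g) = m f + m g} := by
    simp only [Set.ofPred_forall]
    exact isClosed_iInter fun f => isClosed_iInter fun g =>
      isClosed_eq (continuous_apply _) (by fun_prop)
  have h2 : IsClosed {m : Linf Γ → ℂ | ∀ (c : ℂ) (f : Linf Γ), m (c • f) = c * m f} := by
    simp only [Set.ofPred_forall]
    exact isClosed_iInter fun c => isClosed_iInter fun g =>
      isClosed_eq (continuous_apply _) (continuous_const.mul (continuous_apply _))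
  have h3 : IsClosed {m : Linf Γ → ℂ | ∀ f : Linf Γ, (∀ x, 0 ≤ f.1 x) → 0 ≤ m f} := by
    simp only [Set.ofPred_forall]
    exact isClosed_iInter fun f => isClosed_iInter fun _ =>
      isClosed_le continuous_const (continuous_apply _)
  have h4 : IsClosed {m : Linf Γ → ℂ | m 1 = 1} :=
    isClosed_eq (continuous_apply _) continuous_const
  have h5 : IsClosed {m : Linf Γ → ℂ | ∀ (γ : Γ) (f : Linf Γ), m (trans γ f) = m f} := by
    simp only [Set.ofPred_forall]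
    exact isClosed_iInter fun c => isClosed_iInter fun g =>
      isClosed_eq (continuous_apply _) (continuous_apply _)
  exact h1.inter (h2.inter (h3.inter (h4.inter h5)))

lemma isCompact_InvMeans : IsCompact (InvMeans Γ) := by
  have h : IsCompact (Set.univ.pi fun f : Linf Γ => Metric.closedBall (0 : ℂ) (2 * bd f)) :=
    isCompact_univ_pi fun f => isCompact_closedBall _ _
  refine h.of_isClosed_subset isClosed_InvMeans ?_
  intro m hm f _
  rw [mem_closedBall_zero_iff]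
  exact m_bound hm f _ (bd_spec f)

end R290.CD
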