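import Pool.Agent.R290.CD.Index
import Pool.Agent.R290.CD.Mean

/-!
The group `G = (ℕ ×ₗ ω₁) →₀ ℤ/2`, the characters `chi α`, and the function `r` which looks like
`chi α` on large pieces, for every `α < ω₁`.
-/

open Filter Topology MeasureTheory
open scoped ComplexOrder

namespace R290.CD

set_option linter.unusedSectionVars false

/-- The index set of the basis. -/
abbrev L : Type := ℕ ×ₗ J

/-- The group. -/
abbrev G : Type := L →₀ ZMod 2

/-- The local factor of the character. -/
noncomputable def fac (α : J) (p : L) (c : ZMod 2) : ℝ :=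
  if c = 0 then 1 else if α ≤ (ofLex p).2 then -1 else 1

lemma fac_zero (α : J) (p : L) : fac α p 0 = 1 := by simp [fac]

lemma fac_add (α : J) (p : L) (c d : ZMod 2) : fac α p (c + d) = fac α p c * fac α p d := by
  have h2 : (1 + 1 : ZMod 2) = 0 := by decide
  have h : ∀ c : ZMod 2, c = 0 ∨ c = 1 := by decide
  rcases h c with rfl | rfl <;> rcases h d with rfl | rfl
  · simp [fac]
  · simp [fac]
  · simp [fac]
  · rw [h2, fac_zero]
    unfold fac
    split_ifs <;> simp_all

/-- The character `chi α x = (-1)^{#{p ∈ supp x : α ≤ p.2}}`. -/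
noncomputable def chi (α : J) (x : G) : ℝ := x.prod (fac α)

lemma chi_add (α : J) (x y : G) : chi α (x + y) = chi α x * chi α y :=
  Finsupp.prod_add_index' (fac_zero α) (fac_add α)

lemma chi_zero (α : J) : chi α 0 = 1 := by simp [chi]

lemma fac_sq (α : J) (p : L) (c : ZMod 2) : fac α p c = 1 ∨ fac α p c = -1 := by
  unfold fac; split_ifs <;> simp

lemma chi_sq (α : J) (x : G) : chi α x = 1 ∨ chi α x = -1 := by
  unfold chi Finsupp.prod
  refine Finset.prod_induction _ (fun t : ℝ => t = 1 ∨ t = -1) ?_ (Or.inl rfl)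
    fun p _ => fac_sq _ _ _
  rintro a b (rfl | rfl) (rfl | rfl) <;> simp

lemma add_self (x : G) : x + x = 0 := by
  ext p
  simp only [Finsupp.coe_add, Pi.add_apply, Finsupp.coe_zero, Pi.zero_apply]
  have h : ∀ c : ZMod 2, c + c = 0 := by decide
  exact h _

lemma neg_eq (x : G) : -x = x := (eq_neg_of_add_eq_zero_left (add_self x)).symm

lemma sub_eq (x y : G) : x - y = x + y := by rw [sub_eq_add_neg, neg_eq]

lemma fac_continuous (p : L) (c : ZMod 2) : Continuous fun α : J => fac α p c := by
  unfold fac
  by_cases hc : c = 0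
  · simp only [hc, if_true]; exact continuous_const
  · simp only [hc, if_false]
    rw [continuous_iff_continuousAt]
    intro α
    by_cases h : α ≤ (ofLex p).2
    · refine (continuousAt_const (y := (-1 : ℝ))).congr ?_
      filter_upwards [(isOpen_Iic (ofLex p).2).mem_nhds h] with β hβ
      rw [if_pos (show β ≤ (ofLex p).2 from hβ)]
    · refine (continuousAt_const (y := (1 : ℝ))).congr ?_
      filter_upwards [isOpen_Ioi.mem_nhds (show α ∈ Set.Ioi (ofLex p).2 from not_le.1 h)]
        with β hβ
      rw [if_neg (not_le.2 hβ)]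

lemma chi_continuous (x : G) : Continuous fun α : J => chi α x := by
  unfold chi Finsupp.prod
  exact continuous_finsetProd _ fun p _ => fac_continuous p _

lemma chi_eventually (x : G) : ∃ β : J, ∀ α, β ≤ α → chi α x = 1 := by
  -- a bound for the finitely many second coordinates
  have h : ∀ s : Finset L, ∃ β : J, ∀ p ∈ s, (ofLex p).2 < β := by
    intro s
    induction s using Finset.induction_on with
    | empty => exact ⟨Classical.arbitrary J, fun p hp => absurd hp (Finset.notMem_empty p)⟩
    | insert q s _ ih =>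
      obtain ⟨β, hβ⟩ := ih
      obtain ⟨γ, hγ⟩ := exists_gt (ofLex q).2
      refine ⟨max β γ, fun p hp => ?_⟩
      rcases Finset.mem_insert.1 hp with rfl | hp
      · exact lt_of_lt_of_le hγ (le_max_right _ _)
      · exact lt_of_lt_of_le (hβ p hp) (le_max_left _ _)
  obtain ⟨β, hβ⟩ := h x.support
  refine ⟨β, fun α hα => ?_⟩
  unfold chi Finsupp.prod
  refine Finset.prod_eq_one fun p hp => ?_
  have h1 : ¬ α ≤ (ofLex p).2 := not_le.2 (lt_of_lt_of_le (hβ p hp) hα)
  unfold fac
  rw [if_neg h1]
  split_ifs <;> rfl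

lemma chi_single (α : J) (n : ℕ) : chi α (Finsupp.single (toLex (n, α)) 1 : G) = -1 := by
  unfold chi
  rw [Finsupp.prod_single_index (fac_zero _ _)]
  unfold fac
  rw [if_neg (by decide), if_pos (by simp)]

/-- The function `r`. -/
noncomputable def r (x : G) : ℝ :=
  if h : x.support.Nonempty then chi (ofLex (x.support.max' h)).2 x else 1

lemma r_sq (x : G) : r x = 1 ∨ r x = -1 := by
  unfold r
  split_ifs with h
  · exact chi_sq _ _
  · exact Or.inl rfl

/-- On suitable cosets of each finite subgroup, `r` is the character `chi α`. -/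
lemma exists_block (α : J) (F : Finset L) :
    ∃ t : G, ∀ x : G, x.support ⊆ F → r (t + x) = chi α (t + x) := by
  classical
  obtain ⟨N, hN⟩ : ∃ N : ℕ, ∀ p ∈ F, (ofLex p).1 < N := by
    refine ⟨(F.sup fun p => (ofLex p).1) + 1, fun p hp => Nat.lt_succ_of_le ?_⟩
    exact Finset.le_sup (f := fun p : L => (ofLex p).1) hp
  set q : L := toLex (N, α) with hq
  refine ⟨Finsupp.single q 1, fun x hx => ?_⟩
  have hqF : q ∉ F := fun h => lt_irrefl _ (hN q h)
  have hxq : x q = 0 := by
    by_contra h
    exact hqF (hx (Finsupp.mem_support_iff.2 h))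
  have hmem : q ∈ (Finsupp.single q (1 : ZMod 2) + x).support := by
    rw [Finsupp.mem_support_iff, Finsupp.add_apply, Finsupp.single_eq_same, hxq]
    decide
  have hle : ∀ p ∈ (Finsupp.single q (1 : ZMod 2) + x).support, p ≤ q := by
    intro p hp
    by_cases hpq : p = q
    · exact hpq.le
    · rw [Finsupp.mem_support_iff, Finsupp.add_apply, Finsupp.single_eq_of_ne hpq,
        zero_add] at hp
      have h1 := hN p (hx (Finsupp.mem_support_iff.2 hp))
      apply le_of_lt
      rw [Prod.Lex.lt_iff]
      exact Or.inl h1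
  have hmax : (Finsupp.single q (1 : ZMod 2) + x).support.max' ⟨q, hmem⟩ = q :=
    le_antisymm (Finset.max'_le _ _ _ hle) (Finset.le_max' _ _ hmem)
  unfold r
  rw [dif_pos ⟨q, hmem⟩, hmax]
  rfl

end R290.CD
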