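import Mathlib

/-!
The well-ordered index type of order type `ω₁`.
-/

open Filter Topology Set

namespace R290.CD

/-- A well-ordered type of order type `ω₁`. -/
abbrev J : Type := (Cardinal.aleph 1).ord.ToType

lemma countable_Iio (a : J) : (Iio a).Countable := by
  rw [Cardinal.countable_iff_lt_aleph_one]
  exact Cardinal.mk_Iio_toType_ord_lt a

lemma countable_Iic (a : J) : (Iic a).Countable := by
  rw [← Iio_insert]
  exact (countable_Iio a).insert a

lemma not_countable : ¬ (univ : Set J).Countable := by
  rw [Cardinal.countable_iff_lt_aleph_one, Cardinal.mk_univ, Cardinal.mk_ord_toType]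
  exact lt_irrefl _

instance : Nonempty J := by
  by_contra h
  rw [not_nonempty_iff] at h
  exact not_countable (Set.countable_univ_iff.2 inferInstance)

lemma exists_bound (a : ℕ → J) : ∃ b, ∀ n, a n < b := by
  by_contra h
  push Not at h
  have : (univ : Set J) = ⋃ n, Iic (a n) := by
    ext b
    simp only [mem_univ, mem_iUnion, mem_Iic, true_iff]
    exact h b
  apply not_countable
  rw [this]
  exact countable_iUnion fun n => countable_Iic _

instance : NoMaxOrder J where
  exists_gt a := by
    obtain ⟨b, hb⟩ := exists_bound fun _ => a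
    exact ⟨b, hb 0⟩

lemma exists_lub (a : ℕ → J) : ∃ l, IsLUB (range a) l := by
  have hne : (upperBounds (range a)).Nonempty := by
    obtain ⟨b, hb⟩ := exists_bound a
    exact ⟨b, by rintro _ ⟨n, rfl⟩; exact (hb n).le⟩
  refine ⟨(wellFounded_lt (α := J)).min _ hne, WellFounded.min_mem _ _ _, fun b hb => ?_⟩
  exact not_lt.1 (WellFounded.not_lt_min _ _ hb)

noncomputable instance : TopologicalSpace J := Preorder.topology J

instance : OrderTopology J := ⟨rfl⟩

lemma isOpen_Iic (b : J) : IsOpen (Iic b) := by
  have hne : (Ioi b).Nonempty := exists_gt b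
  have : Iic b = Iio ((wellFounded_lt (α := J)).min _ hne) := by
    ext c
    simp only [mem_Iic, mem_Iio]
    constructor
    · intro h
      exact lt_of_le_of_lt h (WellFounded.min_mem (wellFounded_lt (α := J)) _ hne)
    · intro h
      by_contra hc
      exact WellFounded.not_lt_min (wellFounded_lt (α := J)) _ (not_le.1 hc) h
  rw [this]
  exact isOpen_Iio

end R290.CD
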