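import Pool.Agent.R290.CD.Exist
import Pool.Agent.R290.CD.Club

/-!
The non-extreme invariant mean `m₀` all of whose countable data are shared by extreme ones, and
its half `m₁`.
-/

open Filter Topology MeasureTheory
open scoped ComplexOrder

namespace R290.CD

set_option linter.unusedSectionVars false

/-- Evaluation, real part. -/
noncomputable def evRe {Γ : Type} (f : Linf Γ) : (Linf Γ → ℂ) →L[ℝ] ℝ :=
  Complex.reCLM.comp (ContinuousLinearMap.proj f)

/-- Evaluation, imaginary part. -/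
noncomputable def evIm {Γ : Type} (f : Linf Γ) : (Linf Γ → ℂ) →L[ℝ] ℝ :=
  Complex.imCLM.comp (ContinuousLinearMap.proj f)

@[simp] lemma evRe_apply {Γ : Type} (f : Linf Γ) (m : Linf Γ → ℂ) : evRe f m = (m f).re := rfl
@[simp] lemma evIm_apply {Γ : Type} (f : Linf Γ) (m : Linf Γ → ℂ) : evIm f m = (m f).im := rfl

theorem exists_m0 : ∃ m0 ∈ InvMeans G, (∀ γ : G, m0 (dev γ 1) = 0) ∧ m0 rr = 0 ∧
    ∀ f : ℕ → Linf G, ∃ e ∈ (InvMeans G).extremePoints ℝ, ∀ k, e (f k) = m0 (f k) := by
  obtain ⟨m0, hm0, hcl, hφ⟩ := pseudoExtreme (J := J) (Y := YY) (fun a _ => exists_lub a)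
    (isCompact_InvMeans (Γ := G)) isClosed_YY isExtreme_YY
    (fun α => by
      obtain ⟨m, hm, h⟩ := exists_mean α
      exact ⟨m, hm, h⟩)
  refine ⟨m0, hm0, ?_, ?_, ?_⟩
  · intro γ
    obtain ⟨β, hβ⟩ := chi_eventually γ
    have : closure {x : Linf G → ℂ | ∃ α, β ≤ α ∧ (α, x) ∈ YY} ⊆ {x | x (dev γ 1) = 0} := by
      refine closure_minimal ?_ (isClosed_eq (continuous_apply _) continuous_const)
      rintro x ⟨α, hα, hx⟩
      have := hx.2 γ
      rwa [hβ α hα] at this
    exact this (hcl β)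
  · have β : J := Classical.arbitrary J
    have : closure {x : Linf G → ℂ | ∃ α, β ≤ α ∧ (α, x) ∈ YY} ⊆ {x | x rr = 0} := by
      refine closure_minimal ?_ (isClosed_eq (continuous_apply _) continuous_const)
      rintro x ⟨α, hα, hx⟩
      exact m_rr hx
    exact this (hcl β)
  · intro f
    obtain ⟨e, he, h⟩ := hφ (fun k => if k % 2 = 0 then evRe (f (k / 2)) else evIm (f (k / 2)))
    refine ⟨e, he, fun k => ?_⟩
    have h1 := h (2 * k)
    have h2 := h (2 * k + 1)
    have e1 : 2 * k % 2 = 0 := by omega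
    have e2 : 2 * k / 2 = k := by omega
    have e3 : (2 * k + 1) % 2 = 1 := by omega
    have e4 : (2 * k + 1) / 2 = k := by omega
    rw [e1, e2, if_pos rfl] at h1
    rw [e3, e4, if_neg (by norm_num)] at h2
    exact Complex.ext h1 h2

/-- `r₊ = (1 + r)/2`. -/
noncomputable def rp : Linf G := (1 / 2 : ℂ) • (1 + rr)

lemma rp_apply (x : G) : rp.1 x = (((1 + r x) / 2 : ℝ) : ℂ) := by
  simp only [rp, rr, val_smul, val_add, val_one, ofR_apply]
  push_cast
  ring

lemma rp_val (x : G) : rp.1 x = 0 ∨ rp.1 x = 1 := by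
  rw [rp_apply]
  rcases r_sq x with h | h <;> rw [h] <;> norm_num

lemma rp_sq : rp * rp = rp := by
  apply ext'; intro x
  rw [val_mul]
  rcases rp_val x with h | h <;> rw [h] <;> norm_num

/-- The half `m₁`. -/
noncomputable def half (m0 : Linf G → ℂ) : Linf G → ℂ := fun f => 2 * m0 (rp * f)

lemma half_mem {m0 : Linf G → ℂ} (hm0 : m0 ∈ InvMeans G) (hdev : ∀ γ : G, m0 (dev γ 1) = 0)
    (hr : m0 rr = 0) : half m0 ∈ InvMeans G := by
  refine ⟨?_, ?_, ?_, ?_, ?_⟩
  · intro f g
    simp only [half, mul_add rp, m_add hm0]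
    ring
  · intro c f
    simp only [half]
    rw [mul_smul_comm, m_smul hm0]
    ring
  · intro f hf
    simp only [half]
    refine mul_nonneg (by norm_num) (m_pos hm0 _ fun x => ?_)
    rw [val_mul]
    refine mul_nonneg ?_ (hf x)
    rcases rp_val x with h | h <;> rw [h]
    norm_num
  · simp only [half, mul_one]
    rw [rp, m_smul hm0, m_add hm0, m_one hm0, hr]
    norm_num
  · intro γ f
    simp only [half]
    congr 1
    have h1 : m0 (rp * trans γ f) = m0 (trans (-γ) rp * f) := by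
      rw [← m_inv hm0 (-γ) (rp * trans γ f)]
      congr 1
      apply ext'; intro x
      simp [sub_neg_eq_add]
    rw [h1, ← sub_eq_zero, ← m_sub hm0, ← norm_le_zero_iff]
    have h2 : ∃ C : ℝ, ∀ x : G, |bd f * (|r (x - -γ) - 1 * r x|)| ≤ C := by
      obtain ⟨C, hC⟩ := dev_bdd (-γ) 1
      refine ⟨|bd f| * C, fun x => ?_⟩
      rw [abs_mul]
      exact mul_le_mul_of_nonneg_left (hC x) (abs_nonneg _)
    refine (m_norm_le hm0 _ (fun x => bd f * (|r (x - -γ) - 1 * r x|)) h2 fun x => ?_).trans ?_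
    · rw [val_sub, val_mul, val_mul, trans_val, ← sub_mul, norm_mul, mul_comm]
      refine mul_le_mul (bd_spec f x) ?_ (norm_nonneg _) ((norm_nonneg _).trans (bd_spec f x))
      rw [rp_apply, rp_apply, ← Complex.ofReal_sub, Complex.norm_real, Real.norm_eq_abs]
      have : (1 + r (x - -γ)) / 2 - (1 + r x) / 2 = (r (x - -γ) - 1 * r x) / 2 := by ring
      rw [this, abs_div, abs_of_pos (by norm_num : (0 : ℝ) < 2)]
      linarith [abs_nonneg (r (x - -γ) - 1 * r x)]
    · have : ofR (fun x => bd f * (|r (x - -γ) - 1 * r x|)) h2 = (bd f : ℂ) • dev (-γ) 1 := by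
        apply ext'; intro x
        simp [dev]
      rw [this, m_smul hm0, hdev, mul_zero]
      simp

end R290.CD
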